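import Pool.Agent.Work.MP_c0cec8_co.Core

/-!
# Lower bounds for the local gains, and the core theorem
-/

set_option linter.unusedSectionVars false

namespace Pool.Agent.Work.MP_c0cec8_co

open Finset

variable {V : Type*} [Fintype V] [DecidableEq V]

/-- `Q` is the set of all ordered quadruples of a set of pairs of disjoint pairs -/
structure Sym4 (Q : Finset (V × V × V × V)) : Prop where
  s1 : ∀ a b c d : V, (a, b, c, d) ∈ Q → (b, a, c, d) ∈ Q
  s2 : ∀ a b c d : V, (a, b, c, d) ∈ Q → (c, d, a, b) ∈ Q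
  dist : Dist Q

theorem Sym4.s3 {Q : Finset (V × V × V × V)} (h : Sym4 Q) {a b c d : V}
    (hq : (a, b, c, d) ∈ Q) : (a, b, d, c) ∈ Q :=
  h.s2 _ _ _ _ (h.s1 _ _ _ _ (h.s2 _ _ _ _ hq))

/-- linear part -/
noncomputable def lpart (Q : Finset (V × V × V × V)) (v : V) (z : V → Bool) : ℝ :=
  ∑ q ∈ Q.filter (fun q => q.1 = v),
    (- sg (z q.2.1) / 8 + sg (z q.2.2.1) / 8 + sg (z q.2.2.2) / 8)

/-- cubic part -/
noncomputable def cpart (Q : Finset (V × V × V × V)) (v : V) (z : V → Bool) : ℝ :=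
  ∑ q ∈ Q.filter (fun q => q.1 = v), chi {q.2.1, q.2.2.1, q.2.2.2} z

theorem chi_three {b c d : V} (h1 : b ≠ c) (h2 : b ≠ d) (h3 : c ≠ d) (z : V → Bool) :
    chi {b, c, d} z = sg (z b) * sg (z c) * sg (z d) := by
  unfold chi
  rw [prod_insert (by simp [h1, h2]), prod_insert (by simp [h3]), prod_singleton]
  ring

theorem card_three {b c d : V} (h1 : b ≠ c) (h2 : b ≠ d) (h3 : c ≠ d) :
    ({b, c, d} : Finset V).card = 3 := by
  rw [card_insert_of_notMem (by simp [h1, h2]), card_insert_of_notMem (by simp [h3]),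
    card_singleton]

theorem pv_eq {Q : Finset (V × V × V × V)} (hQ : Dist Q) (v : V) (z : V → Bool) :
    pv Q v z = lpart Q v z + 3 / 8 * cpart Q v z := by
  unfold pv lpart cpart
  rw [mul_sum, ← sum_add_distrib]
  refine sum_congr rfl fun q hq => ?_
  obtain ⟨a, b, c, d⟩ := q
  obtain ⟨-, -, -, h4, h5, h6⟩ := hQ a b c d (mem_filter.mp hq).1
  simp only [dd, chi_three h4 h5 h6]

theorem pv_mem_poly {Q : Finset (V × V × V × V)} (hQ : Dist Q) (v : V) :
    pv Q v ∈ poly (univ : Finset V) 3 := by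
  have hc1 : ∀ b : V, (chi {b} : (V → Bool) → ℝ) ∈ poly (univ : Finset V) 3 := fun b =>
    chi_mem_poly (subset_univ _) (by simp)
  have e : pv Q v = ∑ q ∈ Q.filter (fun q => q.1 = v),
      ((-1 / 8 : ℝ) • (chi {q.2.1} : (V → Bool) → ℝ) + (1 / 8 : ℝ) • (chi {q.2.2.1} : (V → Bool) → ℝ)
        + (1 / 8 : ℝ) • (chi {q.2.2.2} : (V → Bool) → ℝ)
        + (3 / 8 : ℝ) • (chi {q.2.1, q.2.2.1, q.2.2.2} : (V → Bool) → ℝ)) := by
    funext z
    rw [Finset.sum_apply]
    unfold pv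
    refine sum_congr rfl fun q hq => ?_
    obtain ⟨a, b, c, d⟩ := q
    obtain ⟨-, -, -, h4, h5, h6⟩ := hQ a b c d (mem_filter.mp hq).1
    simp only [dd, Pi.add_apply, Pi.smul_apply, smul_eq_mul, chi_three h4 h5 h6, chi_singleton]
    ring
  rw [e]
  refine Submodule.sum_mem _ fun q hq => ?_
  obtain ⟨a, b, c, d⟩ := q
  obtain ⟨-, -, -, h4, h5, h6⟩ := hQ a b c d (mem_filter.mp hq).1
  refine Submodule.add_mem _ (Submodule.add_mem _ (Submodule.add_mem _ ?_ ?_) ?_) ?_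
  · exact Submodule.smul_mem _ _ (hc1 _)
  · exact Submodule.smul_mem _ _ (hc1 _)
  · exact Submodule.smul_mem _ _ (hc1 _)
  · exact Submodule.smul_mem _ _ (chi_mem_poly (subset_univ _) (card_three h4 h5 h6).le)

theorem mean_chi_mul_of_card_ne {M N : Finset V} (h : M.card ≠ N.card) :
    mean (fun z => chi M z * chi N z) = 0 := by
  have e : (fun z : V → Bool => chi M z * chi N z) = chi (symmDiff M N) := by
    funext z; exact chi_mul M N z
  rw [e]
  apply mean_chi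
  rw [nonempty_iff_ne_empty]
  intro h0
  have : M = N := by
    have := symmDiff_eq_bot.mp (show symmDiff M N = ⊥ from h0)
    exact this
  exact h (by rw [this])

theorem mean_chi_mul_nonneg (M N : Finset V) : 0 ≤ mean (fun z => chi M z * chi N z) := by
  have e : (fun z : V → Bool => chi M z * chi N z) = chi (symmDiff M N) := by
    funext z; exact chi_mul M N z
  rw [e]
  exact mean_chi_nonneg _

theorem mean_chi_mul_self (M : Finset V) : mean (fun z => chi M z * chi M z) = 1 := by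
  have e : (fun z : V → Bool => chi M z * chi M z) = fun _ => 1 := by
    funext z
    rw [chi_mul, symmDiff_self]
    exact chi_empty z
  rw [e, mean_const]

theorem mean_lpart_mul_cpart {Q : Finset (V × V × V × V)} (hQ : Dist Q) (v : V) :
    mean (fun z => lpart Q v z * cpart Q v z) = 0 := by
  have e : (fun z => lpart Q v z * cpart Q v z) = fun z =>
      ∑ q ∈ Q.filter (fun q => q.1 = v), ∑ q' ∈ Q.filter (fun q => q.1 = v),
        ((-1 / 8) * (chi {q.2.1} z * chi {q'.2.1, q'.2.2.1, q'.2.2.2} z)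
          + (1 / 8) * (chi {q.2.2.1} z * chi {q'.2.1, q'.2.2.1, q'.2.2.2} z)
          + (1 / 8) * (chi {q.2.2.2} z * chi {q'.2.1, q'.2.2.1, q'.2.2.2} z)) := by
    funext z
    unfold lpart cpart
    rw [sum_mul_sum]
    refine sum_congr rfl fun q _ => sum_congr rfl fun q' _ => ?_
    simp only [chi_singleton]
    ring
  rw [e, mean_sum]
  refine sum_eq_zero fun q _ => ?_
  rw [mean_sum]
  refine sum_eq_zero fun q' hq' => ?_
  obtain ⟨a, b, c, d⟩ := q'
  obtain ⟨-, -, -, h4, h5, h6⟩ := hQ a b c d (mem_filter.mp hq').1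
  have h3 := card_three h4 h5 h6
  rw [mean_add, mean_add, mean_const_mul, mean_const_mul, mean_const_mul,
    mean_chi_mul_of_card_ne (by rw [h3]; simp), mean_chi_mul_of_card_ne (by rw [h3]; simp),
    mean_chi_mul_of_card_ne (by rw [h3]; simp)]
  ring

theorem mean_cpart_sq {Q : Finset (V × V × V × V)} (hQ : Sym4 Q) (v : V) :
    2 * ((Q.filter (fun q => q.1 = v)).card : ℝ) ≤ mean (fun z => cpart Q v z ^ 2) := by
  have e : (fun z => cpart Q v z ^ 2) = fun z =>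
      ∑ q ∈ Q.filter (fun q => q.1 = v), ∑ q' ∈ Q.filter (fun q => q.1 = v),
        (chi {q.2.1, q.2.2.1, q.2.2.2} z * chi {q'.2.1, q'.2.2.1, q'.2.2.2} z) := by
    funext z
    unfold cpart
    rw [sq, sum_mul_sum]
  rw [e, mean_sum]
  have : 2 * ((Q.filter (fun q => q.1 = v)).card : ℝ) =
      ∑ q ∈ Q.filter (fun q => q.1 = v), (2 : ℝ) := by
    rw [sum_const, nsmul_eq_mul]; ring
  rw [this]
  refine sum_le_sum fun q hq => ?_
  rw [mean_sum]
  obtain ⟨a, b, c, d⟩ := q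
  obtain ⟨hq1, hq2⟩ := mem_filter.mp hq
  obtain ⟨-, -, -, h4, h5, h6⟩ := hQ.dist a b c d hq1
  have hsub : ({(a, b, c, d), (a, b, d, c)} : Finset (V × V × V × V))
      ⊆ Q.filter (fun q => q.1 = v) := by
    intro x hx
    rcases mem_insert.mp hx with rfl | hx
    · exact hq
    · rw [mem_singleton.mp hx]
      exact mem_filter.mpr ⟨hQ.s3 hq1, hq2⟩
  refine le_trans ?_ (sum_le_sum_of_subset_of_nonneg hsub fun i _ _ => mean_chi_mul_nonneg _ _)
  rw [sum_pair (by simp [h6])]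
  have hsw : ({b, d, c} : Finset V) = {b, c, d} := by
    ext x; simp only [mem_insert, mem_singleton]; tauto
  simp only [hsw, mean_chi_mul_self]
  norm_num

theorem mean_pv_sq {Q : Finset (V × V × V × V)} (hQ : Sym4 Q) (v : V) :
    9 / 32 * ((Q.filter (fun q => q.1 = v)).card : ℝ) ≤ mean (fun z => pv Q v z ^ 2) := by
  have e : (fun z => pv Q v z ^ 2) = fun z =>
      (lpart Q v z ^ 2 + 3 / 4 * (lpart Q v z * cpart Q v z)) + 9 / 64 * cpart Q v z ^ 2 := by
    funext z; rw [pv_eq hQ.dist]; ring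
  rw [e, mean_add, mean_add, mean_const_mul, mean_const_mul, mean_lpart_mul_cpart hQ.dist]
  have h1 := mean_cpart_sq hQ v
  have h2 : 0 ≤ mean (fun z => lpart Q v z ^ 2) := mean_nonneg fun z => sq_nonneg _
  linarith

/-- light vertices -/
theorem mean_abs_pv_light {Q : Finset (V × V × V × V)} (hQ : Sym4 Q) (v : V) {c : ℝ}
    (hlight : c ^ 2 * ((Q.filter (fun q => q.1 = v)).card : ℝ) ≤ 9 / 26912) :
    c * ((Q.filter (fun q => q.1 = v)).card : ℝ) ≤ mean (fun z => |pv Q v z|) := by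
  set k : ℝ := ((Q.filter (fun q => q.1 = v)).card : ℝ) with hk
  have hk0 : 0 ≤ k := by positivity
  rcases hk0.eq_or_lt with h0 | hkpos
  · rw [← h0, mul_zero]; exact mean_nonneg fun z => abs_nonneg _
  have h2 := mean_pv_sq hQ v
  rw [← hk] at h2
  set m := mean (fun z => pv Q v z ^ 2) with hm
  have hm0 : 0 < m := lt_of_lt_of_le (by positivity) h2
  have h3 := mean_abs_ge (pv_mem_poly hQ.dist v) (Real.sqrt_pos.mpr hm0)
    (by rw [Real.sq_sqrt hm0.le])
  refine le_trans ?_ h3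
  -- c k ≤ √m / 29
  rw [le_div_iff₀ (by norm_num)]
  apply Real.le_sqrt_of_sq_le
  refine le_trans ?_ h2
  have : (c * k * 29) ^ 2 = (c ^ 2 * k) * (841 * k) := by ring
  rw [this]
  calc (c ^ 2 * k) * (841 * k) ≤ 9 / 26912 * (841 * k) :=
        mul_le_mul_of_nonneg_right hlight (by positivity)
    _ = 9 / 32 * k := by ring

/-- the coefficient of a single variable -/
theorem mean_pv_mul_chi {Q : Finset (V × V × V × V)} (hQ : Sym4 Q) (v j : V) :
    mean (fun z => pv Q v z * chi {j} z) =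
      (- (((Q.filter (fun q => q.1 = v)).filter (fun q => q.2.1 = j)).card : ℝ)
        + (((Q.filter (fun q => q.1 = v)).filter (fun q => q.2.2.1 = j)).card : ℝ)
        + (((Q.filter (fun q => q.1 = v)).filter (fun q => q.2.2.2 = j)).card : ℝ)) / 8 := by
  have e : (fun z => pv Q v z * chi {j} z) = fun z => ∑ q ∈ Q.filter (fun q => q.1 = v),
      ((((-1 / 8) * (chi {q.2.1} z * chi {j} z) + (1 / 8) * (chi {q.2.2.1} z * chi {j} z))
        + (1 / 8) * (chi {q.2.2.2} z * chi {j} z))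
        + 3 / 8 * (chi {q.2.1, q.2.2.1, q.2.2.2} z * chi {j} z)) := by
    funext z
    unfold pv
    rw [sum_mul]
    refine sum_congr rfl fun q hq => ?_
    obtain ⟨a, b, c, d⟩ := q
    obtain ⟨-, -, -, h4, h5, h6⟩ := hQ.dist a b c d (mem_filter.mp hq).1
    simp only [dd, chi_three h4 h5 h6, chi_singleton]
    ring
  have hs : ∀ b : V, mean (fun z => chi {b} z * chi {j} z) = if b = j then 1 else 0 := by
    intro b
    split_ifs with h
    · rw [h]; exact mean_chi_mul_self _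
    · have e' : (fun z : V → Bool => chi {b} z * chi {j} z)
          = fun z => sg (z b) * sg (z j) := by
        funext z; simp only [chi_singleton]
      rw [e']; exact mean_sg_mul h
  rw [e, mean_sum]
  have h1 : ∀ q ∈ Q.filter (fun q => q.1 = v),
      mean (fun z => (((-1 / 8) * (chi {q.2.1} z * chi {j} z)
        + (1 / 8) * (chi {q.2.2.1} z * chi {j} z))
        + (1 / 8) * (chi {q.2.2.2} z * chi {j} z))
        + 3 / 8 * (chi {q.2.1, q.2.2.1, q.2.2.2} z * chi {j} z))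
      = (-1 / 8) * (if q.2.1 = j then 1 else 0) + (1 / 8) * (if q.2.2.1 = j then 1 else 0)
        + (1 / 8) * (if q.2.2.2 = j then 1 else 0) := by
    intro q hq
    obtain ⟨a, b, c, d⟩ := q
    obtain ⟨-, -, -, h4, h5, h6⟩ := hQ.dist a b c d (mem_filter.mp hq).1
    rw [mean_add, mean_add, mean_add, mean_const_mul, mean_const_mul, mean_const_mul,
      mean_const_mul, hs, hs, hs,
      mean_chi_mul_of_card_ne (by rw [card_three h4 h5 h6]; simp)]
    ring
  rw [sum_congr rfl h1, sum_add_distrib, sum_add_distrib, ← mul_sum, ← mul_sum, ← mul_sum,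
    sum_boole, sum_boole, sum_boole]
  ring

/-- heavy vertices -/
theorem mean_abs_pv_heavy {Q : Finset (V × V × V × V)} (hQ : Sym4 Q) {Δ : ℕ} (hΔ : 1 ≤ Δ)
    (N : V → Finset V) (hN : ∀ v, (N v).card ≤ Δ)
    (hQN : ∀ a b c d : V, (a, b, c, d) ∈ Q → b ∈ N a) (v : V)
    (hheavy : 4 * (Δ : ℝ) ^ 3 ≤ ((Q.filter (fun q => q.1 = v)).card : ℝ)) :
    ((Q.filter (fun q => q.1 = v)).card : ℝ) / (16 * Δ) ≤ mean (fun z => |pv Q v z|) := by
  set k : ℝ := ((Q.filter (fun q => q.1 = v)).card : ℝ) with hk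
  have hΔ0 : (0 : ℝ) < Δ := by exact_mod_cast hΔ
  have hk0 : 0 < k := lt_of_lt_of_le (by positivity) hheavy
  -- a popular neighbour
  obtain ⟨j, hj, hjk⟩ : ∃ j ∈ N v, k / Δ ≤
      (((Q.filter (fun q => q.1 = v)).filter (fun q => q.2.1 = j)).card : ℝ) := by
    by_contra hcon
    push Not at hcon
    have hmaps : ∀ q ∈ Q.filter (fun q => q.1 = v), q.2.1 ∈ N v := by
      rintro ⟨a, b, c, d⟩ hq
      obtain ⟨h1, h2⟩ := mem_filter.mp hq
      simp only at h2
      subst h2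
      exact hQN _ _ _ _ h1
    have h1 := card_eq_sum_card_fiberwise hmaps
    have h2 : k = ∑ j ∈ N v,
        (((Q.filter (fun q => q.1 = v)).filter (fun q => q.2.1 = j)).card : ℝ) := by
      rw [hk, h1]; push_cast; rfl
    have hne : (N v).Nonempty := by
      have : (Q.filter (fun q => q.1 = v)).Nonempty := by
        rw [← card_pos]
        rw [hk] at hk0
        exact_mod_cast hk0
      obtain ⟨q, hq⟩ := this
      exact ⟨_, hmaps q hq⟩
    have h3 : k < ∑ _j ∈ N v, k / Δ := by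
      rw [h2]
      conv_rhs => rw [← h2]
      exact sum_lt_sum_of_nonempty hne fun j hj => hcon j hj
    rw [sum_const, nsmul_eq_mul] at h3
    have h4 : ((N v).card : ℝ) * (k / Δ) ≤ Δ * (k / Δ) := by
      gcongr
      exact_mod_cast hN v
    have h5 : (Δ : ℝ) * (k / Δ) = k := by field_simp
    linarith
  -- few opposite pairs
  have hopp1 : (((Q.filter (fun q => q.1 = v)).filter (fun q => q.2.2.1 = j)).card : ℝ)
      ≤ (Δ : ℝ) ^ 2 := by
    have h1 : ((Q.filter (fun q => q.1 = v)).filter (fun q => q.2.2.1 = j)).card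
        ≤ ((N v) ×ˢ (N j)).card := by
      refine card_le_card_of_injOn (fun q => (q.2.1, q.2.2.2)) ?_ ?_
      · rintro ⟨a, b, c, d⟩ hq
        obtain ⟨hq1, hq2⟩ := mem_filter.mp (mem_coe.mp hq)
        obtain ⟨hq3, hq4⟩ := mem_filter.mp hq1
        simp only at hq2 hq4
        subst hq2 hq4
        simp only [coe_product, Set.mem_prod, mem_coe]
        exact ⟨hQN _ _ _ _ hq3, hQN _ _ _ _ (hQ.s2 _ _ _ _ hq3)⟩
      · rintro ⟨a, b, c, d⟩ hq ⟨a', b', c', d'⟩ hq' heq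
        obtain ⟨hq1, hq2⟩ := mem_filter.mp (mem_coe.mp hq)
        obtain ⟨hq3, hq4⟩ := mem_filter.mp hq1
        obtain ⟨hq1', hq2'⟩ := mem_filter.mp (mem_coe.mp hq')
        obtain ⟨hq3', hq4'⟩ := mem_filter.mp hq1'
        simp only at hq2 hq4 hq2' hq4' heq
        simp only [Prod.mk.injEq] at heq ⊢
        exact ⟨hq4.trans hq4'.symm, heq.1, hq2.trans hq2'.symm, heq.2⟩
    rw [card_product] at h1
    have h2 : (N v).card * (N j).card ≤ Δ * Δ := Nat.mul_le_mul (hN v) (hN j)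
    rw [sq]
    exact_mod_cast h1.trans h2
  have hopp2 : (((Q.filter (fun q => q.1 = v)).filter (fun q => q.2.2.2 = j)).card : ℝ)
      ≤ (Δ : ℝ) ^ 2 := by
    refine le_trans ?_ hopp1
    have h1 : ((Q.filter (fun q => q.1 = v)).filter (fun q => q.2.2.2 = j)).card
        ≤ ((Q.filter (fun q => q.1 = v)).filter (fun q => q.2.2.1 = j)).card := by
      refine card_le_card_of_injOn (fun q => (q.1, q.2.1, q.2.2.2, q.2.2.1)) ?_ ?_
      · rintro ⟨a, b, c, d⟩ hq
        obtain ⟨hq1, hq2⟩ := mem_filter.mp (mem_coe.mp hq)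
        obtain ⟨hq3, hq4⟩ := mem_filter.mp hq1
        simp only at hq2 hq4
        exact mem_coe.mpr (mem_filter.mpr ⟨mem_filter.mpr ⟨hQ.s3 hq3, hq4⟩, hq2⟩)
      · rintro ⟨a, b, c, d⟩ _ ⟨a', b', c', d'⟩ _ heq
        simp only [Prod.mk.injEq] at heq ⊢
        tauto
    exact_mod_cast h1
  have h1 := mean_pv_mul_chi hQ v j
  have h2 : |mean (fun z => pv Q v z * chi {j} z)| ≤ mean (fun z => |pv Q v z|) := by
    refine (abs_mean_le _).trans (mean_mono fun z => ?_)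
    rw [abs_mul, chi_singleton]
    have : |sg (z j)| = 1 := by cases z j <;> simp [sg]
    rw [this, mul_one]
  refine le_trans ?_ h2
  rw [h1]
  refine le_trans ?_ (neg_le_abs _)
  have h3 : (Δ : ℝ) ^ 2 ≤ k / (4 * Δ) := by
    rw [le_div_iff₀ (by positivity)]
    calc (Δ : ℝ) ^ 2 * (4 * Δ) = 4 * (Δ : ℝ) ^ 3 := by ring
      _ ≤ k := hheavy
  have h4 : k / Δ = 4 * (k / (4 * Δ)) := by field_simp
  have h5 : k / (16 * Δ) = (k / (4 * Δ)) / 4 := by field_simp; norm_num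
  rw [h5]
  rw [h4] at hjk
  linarith

/-! ### The core theorem -/

theorem sum_swap1 {Q : Finset (V × V × V × V)} (hQ : Sym4 Q) (F : V × V × V × V → ℝ) :
    ∑ q ∈ Q, F (q.2.1, q.1, q.2.2.1, q.2.2.2) = ∑ q ∈ Q, F q := by
  refine sum_nbij' (fun q => (q.2.1, q.1, q.2.2.1, q.2.2.2))
    (fun q => (q.2.1, q.1, q.2.2.1, q.2.2.2)) ?_ ?_ ?_ ?_ ?_
  · rintro ⟨a, b, c, d⟩ hq; exact hQ.s1 _ _ _ _ hq
  · rintro ⟨a, b, c, d⟩ hq; exact hQ.s1 _ _ _ _ hq
  · rintro ⟨a, b, c, d⟩ _; rfl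
  · rintro ⟨a, b, c, d⟩ _; rfl
  · rintro ⟨a, b, c, d⟩ _; rfl

theorem sum_swap2 {Q : Finset (V × V × V × V)} (hQ : Sym4 Q) (F : V × V × V × V → ℝ) :
    ∑ q ∈ Q, F (q.2.2.1, q.2.2.2, q.1, q.2.1) = ∑ q ∈ Q, F q := by
  refine sum_nbij' (fun q => (q.2.2.1, q.2.2.2, q.1, q.2.1))
    (fun q => (q.2.2.1, q.2.2.2, q.1, q.2.1)) ?_ ?_ ?_ ?_ ?_
  · rintro ⟨a, b, c, d⟩ hq; exact hQ.s2 _ _ _ _ hq
  · rintro ⟨a, b, c, d⟩ hq; exact hQ.s2 _ _ _ _ hq
  · rintro ⟨a, b, c, d⟩ _; rfl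
  · rintro ⟨a, b, c, d⟩ _; rfl
  · rintro ⟨a, b, c, d⟩ _; rfl

/-- gain of changing the colour of `v` for the quadruple `q` -/
noncomputable def gn (Q : Finset (V × V × V × V)) (v : V) (q : V × V × V × V) : ℝ :=
  mean (fun z => surv (Function.update z v (best Q v z)) q - surv z q)

theorem sum_gn_a {Q : Finset (V × V × V × V)} (hQ : Sym4 Q) :
    ∑ q ∈ Q, gn Q q.1 q = - ∑ v, mean (fun z => |pv Q v z|) := by
  rw [← sum_fiberwise Q (fun q => q.1) (fun q => gn Q q.1 q), ← sum_neg_distrib]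
  refine sum_congr rfl fun v _ => ?_
  rw [← mean_gain hQ.dist v, mean_sum]
  rw [← sum_neg_distrib]
  refine sum_congr rfl fun q hq => ?_
  rw [(mem_filter.mp hq).2]
  unfold gn
  have : (fun z => surv (Function.update z v (best Q v z)) q - surv z q)
      = fun z => (-1 : ℝ) * (surv z q - surv (Function.update z v (best Q v z)) q) := by
    funext z; ring
  rw [this, mean_const_mul]; ring

theorem gn_swap1 (Q : Finset (V × V × V × V)) (v a b c d : V) :
    gn Q v (b, a, c, d) = gn Q v (a, b, c, d) := by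
  unfold gn
  simp only [surv_swap1 _ a b c d]

theorem gn_swap2 (Q : Finset (V × V × V × V)) (v a b c d : V) :
    gn Q v (c, d, a, b) = gn Q v (a, b, c, d) := by
  unfold gn
  simp only [surv_swap2 _ a b c d]

theorem sum_gn_b {Q : Finset (V × V × V × V)} (hQ : Sym4 Q) :
    ∑ q ∈ Q, gn Q q.2.1 q = - ∑ v, mean (fun z => |pv Q v z|) := by
  rw [← sum_gn_a hQ, ← sum_swap1 hQ]
  refine sum_congr rfl fun q _ => ?_
  obtain ⟨a, b, c, d⟩ := q
  exact gn_swap1 Q a a b c d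

theorem sum_gn_c {Q : Finset (V × V × V × V)} (hQ : Sym4 Q) :
    ∑ q ∈ Q, gn Q q.2.2.1 q = - ∑ v, mean (fun z => |pv Q v z|) := by
  rw [← sum_gn_a hQ, ← sum_swap2 hQ]
  refine sum_congr rfl fun q _ => ?_
  obtain ⟨a, b, c, d⟩ := q
  exact gn_swap2 Q a a b c d

theorem sum_gn_d {Q : Finset (V × V × V × V)} (hQ : Sym4 Q) :
    ∑ q ∈ Q, gn Q q.2.2.2 q = - ∑ v, mean (fun z => |pv Q v z|) := by
  rw [← sum_gn_b hQ, ← sum_swap2 hQ]
  refine sum_congr rfl fun q _ => ?_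
  obtain ⟨a, b, c, d⟩ := q
  exact gn_swap2 Q b a b c d

theorem mix_mean_le {Q : Finset (V × V × V × V)} (hQ : Sym4 Q) {p : ℝ} (hp0 : 0 ≤ p)
    (hp1 : p ≤ 1) :
    ∑ S : Finset V, wt p S * mean (fun z => ∑ q ∈ Q, surv (mix Q S z) q)
      ≤ (3 / 8 + 33 / 4 * p ^ 2) * (Q.card : ℝ) - 4 * p * ∑ v, mean (fun z => |pv Q v z|) := by
  have h1 : ∀ S : Finset V, ∀ q ∈ Q, mean (fun z => surv (mix Q S z) q) ≤
      3 / 8 + (ind S q.1 * gn Q q.1 q + ind S q.2.1 * gn Q q.2.1 q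
        + ind S q.2.2.1 * gn Q q.2.2.1 q + ind S q.2.2.2 * gn Q q.2.2.2 q)
      + (ind S q.1 * ind S q.2.1 + ind S q.1 * ind S q.2.2.1 + ind S q.1 * ind S q.2.2.2
        + ind S q.2.1 * ind S q.2.2.1 + ind S q.2.1 * ind S q.2.2.2
        + ind S q.2.2.1 * ind S q.2.2.2) * (11 / 8) := by
    rintro S ⟨a, b, c, d⟩ hq
    obtain ⟨h1, h2, h3, h4, h5, h6⟩ := hQ.dist a b c d hq
    refine (mean_mono fun z => surv_mix_le (Q := Q) S z h1 h2 h3 h4 h5 h6).trans (le_of_eq ?_)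
    have hms := mean_surv h1 h2 h3 h4 h5 h6
    simp only [mean_add, mean_const_mul, mean_const, hms, gn]
    ring
  have h2 : ∀ S : Finset V, mean (fun z => ∑ q ∈ Q, surv (mix Q S z) q) ≤
      ∑ q ∈ Q, (3 / 8 + (ind S q.1 * gn Q q.1 q + ind S q.2.1 * gn Q q.2.1 q
        + ind S q.2.2.1 * gn Q q.2.2.1 q + ind S q.2.2.2 * gn Q q.2.2.2 q)
      + (ind S q.1 * ind S q.2.1 + ind S q.1 * ind S q.2.2.1 + ind S q.1 * ind S q.2.2.2
        + ind S q.2.1 * ind S q.2.2.1 + ind S q.2.1 * ind S q.2.2.2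
        + ind S q.2.2.1 * ind S q.2.2.2) * (11 / 8)) := by
    intro S
    rw [mean_sum]
    exact sum_le_sum (h1 S)
  refine (sum_le_sum fun S _ => mul_le_mul_of_nonneg_left (h2 S) (wt_nonneg hp0 hp1 S)).trans ?_
  simp only [mul_sum]
  rw [sum_comm]
  have h3 : ∀ v : V, ∑ S : Finset V, wt p S * ind S v = p := fun v => sum_wt_mem p v
  have h4 : ∀ v w : V, v ≠ w → ∑ S : Finset V, wt p S * (ind S v * ind S w) = p ^ 2 :=
    fun v w h => sum_wt_mem_mem p h
  have h5 : ∀ q ∈ Q, ∑ S : Finset V, wt p S * (3 / 8 + (ind S q.1 * gn Q q.1 q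
        + ind S q.2.1 * gn Q q.2.1 q + ind S q.2.2.1 * gn Q q.2.2.1 q
        + ind S q.2.2.2 * gn Q q.2.2.2 q)
      + (ind S q.1 * ind S q.2.1 + ind S q.1 * ind S q.2.2.1 + ind S q.1 * ind S q.2.2.2
        + ind S q.2.1 * ind S q.2.2.1 + ind S q.2.1 * ind S q.2.2.2
        + ind S q.2.2.1 * ind S q.2.2.2) * (11 / 8))
      = (3 / 8 + 33 / 4 * p ^ 2) + p * (gn Q q.1 q + gn Q q.2.1 q + gn Q q.2.2.1 q
        + gn Q q.2.2.2 q) := by
    rintro ⟨a, b, c, d⟩ hq
    obtain ⟨g1, g2, g3, g4, g5, g6⟩ := hQ.dist a b c d hq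
    have e : ∀ S : Finset V, wt p S * (3 / 8 + (ind S a * gn Q a (a, b, c, d)
        + ind S b * gn Q b (a, b, c, d) + ind S c * gn Q c (a, b, c, d)
        + ind S d * gn Q d (a, b, c, d))
      + (ind S a * ind S b + ind S a * ind S c + ind S a * ind S d
        + ind S b * ind S c + ind S b * ind S d
        + ind S c * ind S d) * (11 / 8))
        = wt p S * (3 / 8) + (wt p S * ind S a) * gn Q a (a, b, c, d)
        + (wt p S * ind S b) * gn Q b (a, b, c, d) + (wt p S * ind S c) * gn Q c (a, b, c, d)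
        + (wt p S * ind S d) * gn Q d (a, b, c, d)
        + ((wt p S * (ind S a * ind S b)) * (11 / 8) + (wt p S * (ind S a * ind S c)) * (11 / 8)
        + (wt p S * (ind S a * ind S d)) * (11 / 8) + (wt p S * (ind S b * ind S c)) * (11 / 8)
        + (wt p S * (ind S b * ind S d)) * (11 / 8) + (wt p S * (ind S c * ind S d)) * (11 / 8)) :=
      fun S => by ring
    simp only [e, sum_add_distrib, ← sum_mul, h3, h4 _ _ g1, h4 _ _ g2, h4 _ _ g3, h4 _ _ g4,
      h4 _ _ g5, h4 _ _ g6, sum_wt]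
    ring
  rw [sum_congr rfl h5, sum_add_distrib, sum_const, nsmul_eq_mul, ← mul_sum, sum_add_distrib,
    sum_add_distrib, sum_add_distrib, sum_gn_a hQ, sum_gn_b hQ, sum_gn_c hQ, sum_gn_d hQ,
    ← mul_sum]
  linarith

/-- **Core theorem.** -/
theorem core {Q : Finset (V × V × V × V)} (hQ : Sym4 Q) {Δ : ℕ} (hΔ : 1 ≤ Δ)
    (N : V → Finset V) (hN : ∀ v, (N v).card ≤ Δ)
    (hQN : ∀ a b c d : V, (a, b, c, d) ∈ Q → b ∈ N a) :
    ∃ x : V → Bool, ∑ q ∈ Q, surv x q ≤ (3 / 8 - 1 / (25000 * (Δ : ℝ) ^ 3)) * (Q.card : ℝ) := by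
  have hΔ0 : (0 : ℝ) < Δ := by exact_mod_cast hΔ
  have hΔ1 : (1 : ℝ) ≤ Δ := by exact_mod_cast hΔ
  set c : ℝ := Real.sqrt (1 / (12000 * (Δ : ℝ) ^ 3)) with hc
  have hc0 : 0 ≤ c := Real.sqrt_nonneg _
  have hc2 : c ^ 2 = 1 / (12000 * (Δ : ℝ) ^ 3) := Real.sq_sqrt (by positivity)
  -- local gains
  have hgain : ∀ v, c * ((Q.filter (fun q => q.1 = v)).card : ℝ)
      ≤ mean (fun z => |pv Q v z|) := by
    intro v
    rcases le_total ((Q.filter (fun q => q.1 = v)).card : ℝ) (4 * (Δ : ℝ) ^ 3) with h | h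
    · refine mean_abs_pv_light hQ v ?_
      rw [hc2]
      calc 1 / (12000 * (Δ : ℝ) ^ 3) * ((Q.filter (fun q => q.1 = v)).card : ℝ)
          ≤ 1 / (12000 * (Δ : ℝ) ^ 3) * (4 * (Δ : ℝ) ^ 3) := by gcongr
        _ = 1 / 3000 := by field_simp; norm_num
        _ ≤ 9 / 26912 := by norm_num
    · refine le_trans ?_ (mean_abs_pv_heavy hQ hΔ N hN hQN v h)
      rw [div_eq_mul_inv, mul_comm]
      refine mul_le_mul_of_nonneg_left ?_ (by positivity)
      rw [hc]
      refine Real.sqrt_le_iff.mpr ⟨by positivity, ?_⟩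
      rw [inv_pow, ← one_div, mul_pow]
      refine one_div_le_one_div_of_le (by positivity) ?_
      nlinarith [pow_pos hΔ0 2]
  have hsum : c * (Q.card : ℝ) ≤ ∑ v, mean (fun z => |pv Q v z|) := by
    have h1 : (Q.card : ℝ) = ∑ v : V, ((Q.filter (fun q => q.1 = v)).card : ℝ) := by
      have := card_eq_sum_card_fiberwise (f := fun q : V × V × V × V => q.1) (s := Q)
        (t := univ) (fun _ _ => mem_univ _)
      rw [this]; push_cast; rfl
    rw [h1, mul_sum]
    exact sum_le_sum fun v _ => hgain v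
  -- choose p
  set p : ℝ := 8 / 33 * c with hp
  have hp0 : 0 ≤ p := by positivity
  have hc1 : c ≤ 1 := by
    rw [hc]
    refine Real.sqrt_le_iff.mpr ⟨by norm_num, ?_⟩
    rw [one_pow, div_le_one (by positivity)]
    nlinarith [one_le_pow₀ hΔ1 (n := 3)]
  have hp1 : p ≤ 1 := by rw [hp]; linarith
  have hmix := mix_mean_le hQ hp0 hp1
  have hfin : ∑ S : Finset V, wt p S * mean (fun z => ∑ q ∈ Q, surv (mix Q S z) q)
      ≤ (3 / 8 - 1 / (25000 * (Δ : ℝ) ^ 3)) * (Q.card : ℝ) := by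
    refine hmix.trans ?_
    have h1 : 4 * p * (c * (Q.card : ℝ)) ≤ 4 * p * ∑ v, mean (fun z => |pv Q v z|) :=
      mul_le_mul_of_nonneg_left hsum (by positivity)
    have h2 : (3 / 8 + 33 / 4 * p ^ 2) * (Q.card : ℝ) - 4 * p * (c * (Q.card : ℝ))
        = (3 / 8 - 16 / 33 * c ^ 2) * (Q.card : ℝ) := by rw [hp]; ring
    have h3 : 1 / (25000 * (Δ : ℝ) ^ 3) ≤ 16 / 33 * c ^ 2 := by
      rw [hc2]
      have : 16 / 33 * (1 / (12000 * (Δ : ℝ) ^ 3)) = 1 / (24750 * (Δ : ℝ) ^ 3) := by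
        field_simp; norm_num
      rw [this]
      refine one_div_le_one_div_of_le (by positivity) ?_
      nlinarith [pow_pos hΔ0 3]
    have h4 : (3 / 8 - 16 / 33 * c ^ 2) * (Q.card : ℝ)
        ≤ (3 / 8 - 1 / (25000 * (Δ : ℝ) ^ 3)) * (Q.card : ℝ) :=
      mul_le_mul_of_nonneg_right (by linarith) (by positivity)
    linarith
  -- pass to an outcome
  obtain ⟨S, hS⟩ : ∃ S : Finset V, mean (fun z => ∑ q ∈ Q, surv (mix Q S z) q)
      ≤ (3 / 8 - 1 / (25000 * (Δ : ℝ) ^ 3)) * (Q.card : ℝ) := by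
    by_contra hcon
    push Not at hcon
    set B := (3 / 8 - 1 / (25000 * (Δ : ℝ) ^ 3)) * (Q.card : ℝ) with hB
    have h1 : ∑ S : Finset V, wt p S * B ≤
        ∑ S : Finset V, wt p S * mean (fun z => ∑ q ∈ Q, surv (mix Q S z) q) :=
      sum_le_sum fun S _ => mul_le_mul_of_nonneg_left (hcon S).le (wt_nonneg hp0 hp1 S)
    have h2 : ∑ S : Finset V, wt p S * B = B := by rw [← sum_mul, sum_wt, one_mul]
    -- some S has positive weight
    have h3 : ∃ S ∈ (univ : Finset (Finset V)), wt p S ≠ 0 := by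
      apply exists_ne_zero_of_sum_ne_zero
      rw [sum_wt]; norm_num
    obtain ⟨S, -, hS⟩ := h3
    have h4 : 0 < wt p S := lt_of_le_of_ne (wt_nonneg hp0 hp1 S) (Ne.symm hS)
    have h5 : ∑ S : Finset V, wt p S * B <
        ∑ S : Finset V, wt p S * mean (fun z => ∑ q ∈ Q, surv (mix Q S z) q) :=
      sum_lt_sum (fun S _ => mul_le_mul_of_nonneg_left (hcon S).le (wt_nonneg hp0 hp1 S))
        ⟨S, mem_univ _, mul_lt_mul_of_pos_left (hcon S) h4⟩
    rw [h2] at h5
    exact absurd h5 (not_lt.mpr hfin)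
  obtain ⟨z, hz⟩ := exists_le_mean (fun z => ∑ q ∈ Q, surv (mix Q S z) q)
  exact ⟨mix Q S z, hz.trans hS⟩

end Pool.Agent.Work.MP_c0cec8_co
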