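import Pool.Agent.Work.MP_c0cec8_co.Geom
import Pool.Agent.Work.MP_c0cec8_co.Gain

/-!
# Counting crossings by ordered quadruples
-/

set_option linter.unusedSectionVars false

namespace Pool.Agent.Work.MP_c0cec8_co

open Finset

open scoped Classical in
/-- ordered quadruples of a graph on `Sym2 V` -/
noncomputable def quad {V : Type*} [Fintype V] (C : SimpleGraph (Sym2 V)) :
    Finset (V × V × V × V) :=
  univ.filter fun q => q.1 ≠ q.2.1 ∧ q.2.2.1 ≠ q.2.2.2 ∧ C.Adj s(q.1, q.2.1) s(q.2.2.1, q.2.2.2)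

variable {V : Type*} [Fintype V]

theorem mem_quad {C : SimpleGraph (Sym2 V)} {a b c d : V} :
    (a, b, c, d) ∈ quad C ↔ a ≠ b ∧ c ≠ d ∧ C.Adj s(a, b) s(c, d) := by
  simp [quad]

open scoped Classical in
theorem card_quad (C : SimpleGraph (Sym2 V)) (hC : ∀ e f, C.Adj e f → ¬ e.IsDiag) :
    (quad C).card = 8 * C.edgeSet.ncard := by
  set T : Finset (Sym2 V × Sym2 V) := univ.filter fun p => C.Adj p.1 p.2 with hT
  have h1 : T.card = 2 * C.edgeSet.ncard := by
    rw [Set.ncard_eq_toFinset_card', Set.toFinset_card, ← SimpleGraph.edgeFinset_card,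
      ← SimpleGraph.sum_degrees_eq_twice_card_edges]
    rw [card_eq_sum_card_fiberwise (f := fun p : Sym2 V × Sym2 V => p.1) (t := univ)
      (fun _ _ => mem_univ _)]
    refine sum_congr rfl fun e _ => ?_
    rw [← SimpleGraph.card_neighborFinset_eq_degree]
    refine card_nbij' (fun p => p.2) (fun f => (e, f)) ?_ ?_ ?_ ?_
    · rintro ⟨e', f⟩ hp
      obtain ⟨hp1, hp2⟩ := mem_filter.mp (mem_coe.mp hp)
      simp only at hp2
      subst hp2
      simpa [hT] using hp1
    · intro f hf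
      simpa [hT] using hf
    · rintro ⟨e', f⟩ hp
      obtain ⟨hp1, hp2⟩ := mem_filter.mp (mem_coe.mp hp)
      simp only at hp2
      subst hp2
      rfl
    · intro f _; rfl
  have h2 : (quad C).card = ∑ p ∈ T, 4 := by
    rw [card_eq_sum_card_fiberwise (f := fun q : V × V × V × V =>
      (s(q.1, q.2.1), s(q.2.2.1, q.2.2.2))) (t := T)]
    · refine sum_congr rfl fun p hp => ?_
      obtain ⟨e, f⟩ := p
      have hadj : C.Adj e f := by simpa [hT] using hp
      have he := hC e f hadj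
      have hf := hC f e hadj.symm
      induction e using Sym2.ind with
      | _ u v =>
      induction f using Sym2.ind with
      | _ w x =>
      rw [Sym2.mk_isDiag_iff] at he hf
      have hset : (quad C).filter (fun q : V × V × V × V =>
          (s(q.1, q.2.1), s(q.2.2.1, q.2.2.2)) = (s(u, v), s(w, x)))
          = {(u, v, w, x), (v, u, w, x), (u, v, x, w), (v, u, x, w)} := by
        ext ⟨a, b, c, d⟩
        simp only [mem_filter, mem_quad, Prod.mk.injEq, mem_insert, mem_singleton]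
        constructor
        · rintro ⟨-, h1, h2⟩
          rcases Sym2.eq_iff.mp h1 with ⟨rfl, rfl⟩ | ⟨rfl, rfl⟩ <;>
            rcases Sym2.eq_iff.mp h2 with ⟨rfl, rfl⟩ | ⟨rfl, rfl⟩ <;> simp
        · have hadj' : C.Adj s(v, u) s(w, x) := by rw [Sym2.eq_swap]; exact hadj
          have hadj'' : C.Adj s(u, v) s(x, w) := by
            rw [Sym2.eq_swap (a := x)]; exact hadj
          have hadj''' : C.Adj s(v, u) s(x, w) := by
            rw [Sym2.eq_swap (a := x)]; exact hadj'
          rintro (⟨rfl, rfl, rfl, rfl⟩ | ⟨rfl, rfl, rfl, rfl⟩ | ⟨rfl, rfl, rfl, rfl⟩ |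
            ⟨rfl, rfl, rfl, rfl⟩)
          · exact ⟨⟨he, hf, hadj⟩, rfl, rfl⟩
          · exact ⟨⟨Ne.symm he, hf, hadj'⟩, Sym2.eq_swap, rfl⟩
          · exact ⟨⟨he, Ne.symm hf, hadj''⟩, rfl, Sym2.eq_swap⟩
          · exact ⟨⟨Ne.symm he, Ne.symm hf, hadj'''⟩, Sym2.eq_swap, Sym2.eq_swap⟩
      rw [hset, card_insert_of_notMem, card_insert_of_notMem, card_insert_of_notMem,
        card_singleton]
      · simp only [mem_singleton, Prod.mk.injEq, not_and]
        intro h; exact absurd h he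
      · simp only [mem_insert, mem_singleton, Prod.mk.injEq, not_or, not_and]
        exact ⟨fun h => absurd h.symm he, fun _ _ h => absurd h hf⟩
      · simp only [mem_insert, mem_singleton, Prod.mk.injEq, not_or, not_and]
        exact ⟨fun h => absurd h he, fun _ _ h => absurd h hf, fun h => absurd h he⟩
    · rintro ⟨a, b, c, d⟩ hq
      have := mem_quad.mp (mem_coe.mp hq)
      simp only [hT, coe_filter, mem_univ, true_and, Set.mem_ofPred_eq]
      exact this.2.2
  rw [h2, sum_const, smul_eq_mul, h1]; ring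

theorem Drawing.not_isDiag {G : SimpleGraph V} (D : Drawing G) (e f : Sym2 V)
    (h : D.crossGraph.Adj e f) : ¬ e.IsDiag := G.not_isDiag_of_mem_edgeSet h.1

theorem Drawing.sym4 {G : SimpleGraph V} (D : Drawing G) : Sym4 (quad D.crossGraph) where
  s1 := by
    intro a b c d h
    rw [mem_quad] at h ⊢
    refine ⟨h.1.symm, h.2.1, ?_⟩
    rw [Sym2.eq_swap]; exact h.2.2
  s2 := by
    intro a b c d h
    rw [mem_quad] at h ⊢
    exact ⟨h.2.1, h.1, h.2.2.symm⟩
  dist := by
    intro a b c d h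
    obtain ⟨h1, h2, -, -, -, h3, -⟩ := mem_quad.mp h
    have ha := h3 a (Sym2.mem_mk_left a b)
    have hb := h3 b (Sym2.mem_mk_right a b)
    rw [Sym2.mem_iff, not_or] at ha hb
    exact ⟨h1, ha.1, ha.2, hb.1, hb.2, h2⟩

/-- `cr` is attained -/
theorem exists_cr (G : SimpleGraph V) : ∃ D : Drawing G, D.crossings = cr G := by
  have : cr G ∈ {n : ℕ | ∃ D : Drawing G, D.crossings = n} := by
    apply Nat.sInf_mem
    obtain ⟨D⟩ := exists_drawing G
    exact ⟨D.crossings, D, rfl⟩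
  exact this

theorem cr_le {G : SimpleGraph V} (D : Drawing G) : cr G ≤ D.crossings :=
  Nat.sInf_le ⟨D, rfl⟩

theorem cr₂_le {G G₁ G₂ : SimpleGraph V} (h : G₁ ⊔ G₂ = G) (hd : Disjoint G₁ G₂) :
    cr₂ G ≤ cr G₁ + cr G₂ := Nat.sInf_le ⟨G₁, G₂, h, hd, rfl⟩

open scoped Classical in
/-- Labelled splitting: if the labels `c` are constant along the edges of `H ≤ G`, then `8 cr H` is
at most the number of quadruples of `D` with both edges in `H` and equal labels. -/
theorem cr_le_of_label {G H : SimpleGraph V} (D : Drawing G) (hHG : H ≤ G)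
    (c : V → Bool) (hc : ∀ u v, H.Adj u v → c u = c v) :
    8 * cr H ≤ ((quad D.crossGraph).filter fun q =>
      H.Adj q.1 q.2.1 ∧ H.Adj q.2.2.1 q.2.2.2 ∧ c q.1 = c q.2.2.1).card := by
  obtain ⟨D', hD'⟩ := D.split hHG c hc
  have h1 : 8 * cr H ≤ (quad D'.crossGraph).card := by
    rw [card_quad _ D'.not_isDiag]
    exact Nat.mul_le_mul_left 8 (cr_le D')
  refine h1.trans (card_le_card ?_)
  rintro ⟨a, b, c', d⟩ hq
  obtain ⟨h2, h3, h4⟩ := mem_quad.mp hq
  obtain ⟨h5, h6, h7, h8⟩ := hD' _ _ h4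
  rw [mem_filter, mem_quad]
  exact ⟨⟨h2, h3, h5⟩, h6, h7, h8 a (Sym2.mem_mk_left a b) c' (Sym2.mem_mk_left c' d)⟩

/-- A version of `cr_le_of_label` with a majorant. -/
theorem cr_le_sum {G H : SimpleGraph V} (D : Drawing G) (hHG : H ≤ G)
    (c : V → Bool) (hc : ∀ u v, H.Adj u v → c u = c v) (F : V × V × V × V → ℝ)
    (hF0 : ∀ q, 0 ≤ F q)
    (hF : ∀ q ∈ quad D.crossGraph, H.Adj q.1 q.2.1 → H.Adj q.2.2.1 q.2.2.2 →
      c q.1 = c q.2.2.1 → 1 ≤ F q) :
    8 * (cr H : ℝ) ≤ ∑ q ∈ quad D.crossGraph, F q := by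
  classical
  have h1 := (Nat.cast_le (α := ℝ)).mpr (cr_le_of_label D hHG c hc)
  push_cast at h1
  refine h1.trans ?_
  rw [← sum_boole]
  refine sum_le_sum fun q hq => ?_
  split_ifs with h
  · exact hF q hq h.1 h.2.1 h.2.2
  · exact hF0 q

end Pool.Agent.Work.MP_c0cec8_co
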