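import Pool.Agent.Work.MP_c0cec8_co.Four
import Pool.Agent.Work.MP_c0cec8_co.Quad

/-!
# Splitting a circularly coloured graph
-/

set_option linter.unusedSectionVars false

namespace Pool.Agent.Work.MP_c0cec8_co

open Finset

/-! ### Zones and labels

Zone `0`: only label `00`; zone `1`: labels `00`, `11`; zone `2`: labels `01`, `10`. -/

/-- reduced bit -/
def rr (z : Fin 3) (y : Bool) : Bool := if z = 0 then false else y

/-- second label -/
def c1 (z : Fin 3) (y : Bool) : Bool := if z = 0 then false else if z = 2 then !y else y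

/-- the plane of an edge -/
def pl (z z' : Fin 3) (y y' : Bool) : Bool :=
  if z = 0 ∧ z' = 0 then xor y y' else xor (rr z y) (rr z' y')

/-- admissible pairs of zones -/
def ok (z z' : Fin 3) : Bool :=
  (z = 0 ∧ z' = 0) ∨ (z = 0 ∧ z' = 2) ∨ (z = 2 ∧ z' = 0) ∨ (z = 1 ∧ z' = 2) ∨ (z = 2 ∧ z' = 1)

/-- survival -/
def ff (za zb zc zd : Fin 3) (α β γ δ : Bool) : ℕ :=
  if (pl za zb α β = false ∧ pl zc zd γ δ = false ∧ rr za α = rr zc γ) ∨
    (pl za zb α β = true ∧ pl zc zd γ δ = true ∧ c1 za α = c1 zc γ) then 1 else 0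

theorem pl_comm (z z' : Fin 3) (y y' : Bool) : pl z z' y y' = pl z' z y' y := by
  unfold pl rr
  revert z z' y y'
  decide

theorem label0 : ∀ (z z' : Fin 3) (y y' : Bool), ok z z' → pl z z' y y' = false →
    rr z y = rr z' y' := by decide

theorem label1 : ∀ (z z' : Fin 3) (y y' : Bool), ok z z' → pl z z' y y' = true →
    c1 z y = c1 z' y' := by decide

theorem ff_sum : ∀ za zb zc zd : Fin 3, ok za zb → ok zc zd →
    (∑ α, ∑ β, ∑ γ, ∑ δ, ff za zb zc zd α β γ δ) ≤ 4 + (if za = 1 ∨ zb = 1 then 0 else 4) := by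
  decide

/-- the zone of a position -/
def zone (s q x : ℕ) : Fin 3 := if x < s then 0 else if x < q then 1 else if x < q + s then 0 else 2

theorem zone_ok {s q x y : ℕ} (hsq : s ≤ q) (hx : x < 2 * q + s) (hy : y < 2 * q + s)
    (h : (q + y ≤ x ∧ x ≤ q + s + y) ∨ (q + x ≤ y ∧ y ≤ q + s + x)) :
    ok (zone s q x) (zone s q y) = true := by
  unfold zone
  rcases h with ⟨h1, h2⟩ | ⟨h1, h2⟩ <;> split_ifs <;> first | rfl | (exfalso; omega)

theorem card_zone {p s q : ℕ} [NeZero p] (hqp : q ≤ p) (a : ZMod p) :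
    (univ.filter fun t : ZMod p => zone s q (a + t).val = 1).card = q - s := by
  have h1 : (univ.filter fun t : ZMod p => zone s q (a + t).val = 1).card
      = (univ.filter fun x : ZMod p => zone s q x.val = 1).card := by
    refine card_nbij' (fun t => a + t) (fun x => x - a) ?_ ?_ ?_ ?_
    · intro t ht
      simpa using ht
    · intro x hx
      simpa using hx
    · intro t _; simp
    · intro x _; simp
  have h2 : ∀ x : ℕ, zone s q x = 1 ↔ s ≤ x ∧ x < q := by
    intro x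
    unfold zone
    split_ifs with h3 h4 h5
    · simp; omega
    · simp; omega
    · simp; omega
    · have : ¬ ((2 : Fin 3) = 1) := by decide
      simp only [this, false_iff]; omega
  rw [h1, ← Nat.card_Ico]
  refine card_nbij (fun x => x.val) ?_ ?_ ?_
  · intro x hx
    simp only [coe_filter, mem_univ, true_and, Set.mem_ofPred_eq, h2] at hx
    simpa using hx
  · intro x _ y _ h
    exact ZMod.val_injective p h
  · intro n hn
    simp only [coe_Ico, Set.mem_Ico] at hn
    have hnp : n < p := lt_of_lt_of_le hn.2 hqp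
    refine ⟨(n : ZMod p), ?_, ?_⟩
    · simp only [coe_filter, mem_univ, true_and, Set.mem_ofPred_eq, h2]
      rw [ZMod.val_natCast, Nat.mod_eq_of_lt hnp]
      exact hn
    · simp only
      rw [ZMod.val_natCast, Nat.mod_eq_of_lt hnp]

theorem pos_diff {p q s : ℕ} [NeZero p] (hp : p = 2 * q + s) {a b t : ZMod p}
    (h1 : q ≤ (a - b).val) (h2 : (a - b).val ≤ p - q) :
    (q + (b + t).val ≤ (a + t).val ∧ (a + t).val ≤ q + s + (b + t).val) ∨
      (q + (a + t).val ≤ (b + t).val ∧ (b + t).val ≤ q + s + (a + t).val) := by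
  have h3 : a + t = (b + t) + (a - b) := by ring
  have h4 : (a + t).val = ((b + t).val + (a - b).val) % p := by
    conv_lhs => rw [h3]
    rw [ZMod.val_add]
  have h5 := ZMod.val_lt (b + t)
  have h6 := ZMod.val_lt (a + t)
  set X := (a + t).val
  set Y := (b + t).val
  set d := (a - b).val
  by_cases h7 : Y + d < p
  · rw [Nat.mod_eq_of_lt h7] at h4
    left; omega
  · push Not at h7
    rw [Nat.mod_eq_sub_mod h7, Nat.mod_eq_of_lt (by omega)] at h4
    right; omega

variable {V : Type*} [Fintype V] [DecidableEq V]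

theorem mean_ff {a b c d : V} (h1 : a ≠ b) (h2 : a ≠ c) (h3 : a ≠ d) (h4 : b ≠ c) (h5 : b ≠ d)
    (h6 : c ≠ d) {za zb zc zd : Fin 3} (hab : ok za zb = true) (hcd : ok zc zd = true) :
    mean (fun y : V → Bool => ((ff za zb zc zd (y a) (y b) (y c) (y d) : ℕ) : ℝ))
      ≤ 1 / 2 - 1 / 4 * ((if za = 1 then 1 else 0) + (if zb = 1 then 1 else 0)) := by
  rw [mean_four h1 h2 h3 h4 h5 h6 (fun α β γ δ => ((ff za zb zc zd α β γ δ : ℕ) : ℝ))]
  have h7 := ff_sum za zb zc zd hab hcd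
  have h8 : ((∑ α, ∑ β, ∑ γ, ∑ δ, (ff za zb zc zd α β γ δ : ℝ)))
      ≤ 4 + (if za = 1 ∨ zb = 1 then 0 else 4) := by
    have := (Nat.cast_le (α := ℝ)).mpr h7
    push_cast at this
    exact this
  have h9 : ¬ (za = 1 ∧ zb = 1) := by
    rintro ⟨rfl, rfl⟩
    revert hab
    decide
  by_cases h10 : za = 1
  · have h11 : ¬ zb = 1 := fun h => h9 ⟨h10, h⟩
    simp only [h10, h11, true_or, if_true, if_false] at h8 ⊢
    linarith
  · by_cases h11 : zb = 1
    · simp only [h10, h11, or_true, if_true, if_false] at h8 ⊢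
      linarith
    · simp only [h10, h11, or_self, if_false] at h8 ⊢
      linarith

/-- the choice of rotation and bits -/
theorem exists_rotation {Q : Finset (V × V × V × V)} (hQ : Sym4 Q) {p q s : ℕ} [NeZero p]
    (hp : p = 2 * q + s) (hsq : s ≤ q) (c : V → ZMod p)
    (hc : ∀ a b c' d : V, (a, b, c', d) ∈ Q → q ≤ (c a - c b).val ∧ (c a - c b).val ≤ p - q) :
    ∃ (t : ZMod p) (y : V → Bool), ∑ w ∈ Q, ((ff (zone s q (c w.1 + t).val)
      (zone s q (c w.2.1 + t).val) (zone s q (c w.2.2.1 + t).val) (zone s q (c w.2.2.2 + t).val)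
      (y w.1) (y w.2.1) (y w.2.2.1) (y w.2.2.2) : ℕ) : ℝ)
      ≤ (1 - 3 * (q : ℝ) / (2 * p)) * (Q.card : ℝ) := by
  have hp0 : (0 : ℝ) < p := by exact_mod_cast Nat.pos_of_ne_zero (NeZero.ne p)
  by_contra hcon
  push Not at hcon
  set Φ : ZMod p → (V → Bool) → ℝ := fun t y => ∑ w ∈ Q, ((ff (zone s q (c w.1 + t).val)
      (zone s q (c w.2.1 + t).val) (zone s q (c w.2.2.1 + t).val) (zone s q (c w.2.2.2 + t).val)
      (y w.1) (y w.2.1) (y w.2.2.1) (y w.2.2.2) : ℕ) : ℝ) with hΦ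
  have h1 : ∀ t, (1 - 3 * (q : ℝ) / (2 * p)) * (Q.card : ℝ) < mean (Φ t) := by
    intro t
    obtain ⟨y, hy⟩ := exists_le_mean (Φ t)
    exact (hcon t y).trans_le hy
  have h2 : ∑ _t : ZMod p, (1 - 3 * (q : ℝ) / (2 * p)) * (Q.card : ℝ) < ∑ t : ZMod p, mean (Φ t) :=
    sum_lt_sum_of_nonempty univ_nonempty fun t _ => h1 t
  have h3 : ∀ t, mean (Φ t) ≤ ∑ w ∈ Q, (1 / 2 - 1 / 4 *
      ((if zone s q (c w.1 + t).val = 1 then 1 else 0)
        + (if zone s q (c w.2.1 + t).val = 1 then 1 else 0))) := by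
    intro t
    rw [hΦ]
    simp only
    rw [mean_sum]
    refine sum_le_sum ?_
    rintro ⟨a, b, c', d⟩ hw
    obtain ⟨g1, g2, g3, g4, g5, g6⟩ := hQ.dist a b c' d hw
    have hval : ∀ v : V, (c v + t).val < 2 * q + s := fun v => by
      rw [← hp]; exact ZMod.val_lt _
    have k1 := hc a b c' d hw
    have k2 := hc c' d a b (hQ.s2 _ _ _ _ hw)
    exact mean_ff g1 g2 g3 g4 g5 g6
      (zone_ok hsq (hval a) (hval b) (pos_diff hp k1.1 k1.2))
      (zone_ok hsq (hval c') (hval d) (pos_diff hp k2.1 k2.2))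
  have h4 : ∑ t : ZMod p, mean (Φ t) ≤ ∑ t : ZMod p, ∑ w ∈ Q, (1 / 2 - 1 / 4 *
      ((if zone s q (c w.1 + t).val = 1 then (1 : ℝ) else 0)
        + (if zone s q (c w.2.1 + t).val = 1 then 1 else 0))) := sum_le_sum fun t _ => h3 t
  rw [sum_comm] at h4
  have h5 : ∀ w ∈ Q, ∑ t : ZMod p, (1 / 2 - 1 / 4 *
      ((if zone s q (c w.1 + t).val = 1 then (1 : ℝ) else 0)
        + (if zone s q (c w.2.1 + t).val = 1 then 1 else 0)))
      = p * (1 - 3 * (q : ℝ) / (2 * p)) := by
    intro w _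
    rw [sum_sub_distrib, ← mul_sum, sum_add_distrib, sum_boole, sum_boole,
      card_zone (by omega), card_zone (by omega), sum_const, card_univ, ZMod.card, nsmul_eq_mul,
      Nat.cast_sub hsq]
    have hp' : (p : ℝ) = 2 * q + s := by rw [hp]; push_cast; ring
    have hs' : (s : ℝ) = p - 2 * q := by rw [hp']; ring
    rw [hs']
    field_simp
    ring
  rw [sum_congr rfl h5, sum_const, nsmul_eq_mul] at h4
  rw [sum_const, card_univ, ZMod.card, nsmul_eq_mul] at h2
  have h6 : (Q.card : ℝ) * (p * (1 - 3 * (q : ℝ) / (2 * p)))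
      = p * ((1 - 3 * (q : ℝ) / (2 * p)) * (Q.card : ℝ)) := by ring
  linarith

end Pool.Agent.Work.MP_c0cec8_co
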