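import Mathlib

/-!
# Polynomials of low degree on the discrete cube

Mean values over all colourings `V → Bool`, characters, the Bonami inequality
`E P⁴ ≤ 9^d (E P²)²` for polynomials of degree at most `d`, and the resulting lower bound for
`E |P|`.
-/

set_option linter.unusedSectionVars false

namespace Pool.Agent.Work.MP_c0cec8_co

open Finset

variable {V : Type*} [Fintype V] [DecidableEq V]

/-- the sign of a colour -/
def sg (b : Bool) : ℝ := if b then 1 else -1

theorem sg_sq (b : Bool) : sg b * sg b = 1 := by cases b <;> simp [sg]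

theorem sg_not (b : Bool) : sg (!b) = - sg b := by cases b <;> simp [sg]

/-- the mean over all colourings -/
noncomputable def mean (P : (V → Bool) → ℝ) : ℝ := (∑ z, P z) / 2 ^ Fintype.card V

theorem mean_add (P Q : (V → Bool) → ℝ) : mean (fun z => P z + Q z) = mean P + mean Q := by
  simp only [mean, sum_add_distrib, add_div]

theorem mean_sub (P Q : (V → Bool) → ℝ) : mean (fun z => P z - Q z) = mean P - mean Q := by
  simp only [mean, sum_sub_distrib, sub_div]

theorem mean_const_mul (c : ℝ) (P : (V → Bool) → ℝ) :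
    mean (fun z => c * P z) = c * mean P := by
  simp only [mean, ← mul_sum, mul_div_assoc]

theorem mean_const (c : ℝ) : mean (fun _ : V → Bool => c) = c := by
  simp [mean]

theorem mean_sum {ι : Type*} (s : Finset ι) (P : ι → (V → Bool) → ℝ) :
    mean (fun z => ∑ i ∈ s, P i z) = ∑ i ∈ s, mean (P i) := by
  simp only [mean]
  rw [sum_comm, sum_div]

theorem mean_mono {P Q : (V → Bool) → ℝ} (h : ∀ z, P z ≤ Q z) : mean P ≤ mean Q := by
  unfold mean
  gcongr
  exact h _

theorem mean_nonneg {P : (V → Bool) → ℝ} (h : ∀ z, 0 ≤ P z) : 0 ≤ mean P := by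
  unfold mean
  have := sum_nonneg (fun z (_ : z ∈ (univ : Finset (V → Bool))) => h z)
  positivity

theorem abs_mean_le (P : (V → Bool) → ℝ) : |mean P| ≤ mean (fun z => |P z|) := by
  unfold mean
  rw [abs_div, abs_of_pos (by positivity : (0 : ℝ) < 2 ^ Fintype.card V)]
  gcongr
  exact abs_sum_le_sum_abs _ _

theorem exists_le_mean (P : (V → Bool) → ℝ) : ∃ z, P z ≤ mean P := by
  by_contra h
  push Not at h
  have h1 : ∑ _z : V → Bool, mean P < ∑ z, P z :=
    sum_lt_sum_of_nonempty univ_nonempty (fun z _ => h z)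
  have h2 : ∑ _z : V → Bool, mean P = ∑ z, P z := by
    simp only [sum_const, card_univ, Fintype.card_fun, Fintype.card_bool, nsmul_eq_mul,
      Nat.cast_pow, Nat.cast_ofNat, mean]
    field_simp
  exact absurd h1 (by rw [h2]; exact lt_irrefl _)

/-- change the colour of one vertex -/
def flp (v : V) (z : V → Bool) : V → Bool := Function.update z v (!(z v))

theorem flp_same (v : V) (z : V → Bool) : flp v z v = !(z v) := by simp [flp]

theorem flp_ne {v w : V} (h : w ≠ v) (z : V → Bool) : flp v z w = z w := by simp [flp, h]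

theorem flp_flp (v : V) (z : V → Bool) : flp v (flp v z) = z := by
  ext w
  by_cases h : w = v
  · subst h; simp [flp_same]
  · simp [flp_ne h]

theorem mean_flp (v : V) (P : (V → Bool) → ℝ) : mean (fun z => P (flp v z)) = mean P := by
  unfold mean
  congr 1
  exact Equiv.sum_comp (Function.Involutive.toPerm (flp v) (flp_flp v)) P

/-- characters -/
def chi (M : Finset V) (z : V → Bool) : ℝ := ∏ i ∈ M, sg (z i)

theorem chi_empty (z : V → Bool) : chi ∅ z = 1 := by simp [chi]

theorem chi_flp_mem {v : V} {M : Finset V} (h : v ∈ M) (z : V → Bool) :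
    chi M (flp v z) = - chi M z := by
  unfold chi
  rw [← mul_prod_erase _ _ h, ← mul_prod_erase _ _ h, flp_same, sg_not]
  have : ∏ x ∈ M.erase v, sg (flp v z x) = ∏ x ∈ M.erase v, sg (z x) :=
    prod_congr rfl fun x hx => by rw [flp_ne (ne_of_mem_erase hx)]
  rw [this]; ring

theorem chi_flp_not_mem {v : V} {M : Finset V} (h : v ∉ M) (z : V → Bool) :
    chi M (flp v z) = chi M z := by
  unfold chi
  refine prod_congr rfl fun x hx => ?_
  have hxv : x ≠ v := fun hxv => h (by rw [← hxv]; exact hx)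
  rw [flp_ne hxv]

theorem mean_eq_zero_of_flp {v : V} {P : (V → Bool) → ℝ} (h : ∀ z, P (flp v z) = - P z) :
    mean P = 0 := by
  have h1 := mean_flp v P
  have h2 : mean (fun z => P (flp v z)) = - mean P := by
    have : (fun z => P (flp v z)) = fun z => (-1 : ℝ) * P z := by
      funext z; rw [h]; ring
    rw [this, mean_const_mul]; ring
  linarith

theorem mean_chi {M : Finset V} (h : M.Nonempty) : mean (chi M) = 0 := by
  obtain ⟨v, hv⟩ := h
  exact mean_eq_zero_of_flp (chi_flp_mem hv)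

theorem mean_chi_nonneg (M : Finset V) : 0 ≤ mean (chi M) := by
  rcases M.eq_empty_or_nonempty with rfl | h
  · have : (chi ∅ : (V → Bool) → ℝ) = fun _ => 1 := by funext z; exact chi_empty z
    rw [this, mean_const]; norm_num
  · rw [mean_chi h]

theorem chi_mul (M N : Finset V) (z : V → Bool) :
    chi M z * chi N z = chi (symmDiff M N) z := by
  have h1 : chi M z = (∏ i, if i ∈ M then sg (z i) else 1) := by
    simp [chi, Finset.prod_ite_mem]
  have h2 : chi N z = (∏ i, if i ∈ N then sg (z i) else 1) := by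
    simp [chi, Finset.prod_ite_mem]
  have h3 : chi (symmDiff M N) z = (∏ i, if i ∈ symmDiff M N then sg (z i) else 1) := by
    simp [chi, Finset.prod_ite_mem]
  rw [h1, h2, h3, ← prod_mul_distrib]
  refine prod_congr rfl fun i _ => ?_
  by_cases hM : i ∈ M <;> by_cases hN : i ∈ N <;> simp [Finset.mem_symmDiff, hM, hN, sg_sq]

theorem chi_singleton (v : V) (z : V → Bool) : chi {v} z = sg (z v) := by simp [chi]

/-- polynomials of degree at most `d` in the variables from `s` -/
def poly (s : Finset V) (d : ℕ) : Submodule ℝ ((V → Bool) → ℝ) :=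
  Submodule.span ℝ {P | ∃ M : Finset V, M ⊆ s ∧ M.card ≤ d ∧ P = chi M}

theorem chi_mem_poly {s : Finset V} {d : ℕ} {M : Finset V} (h : M ⊆ s) (hd : M.card ≤ d) :
    chi M ∈ poly s d := Submodule.subset_span ⟨M, h, hd, rfl⟩

theorem poly_zero {s : Finset V} {P : (V → Bool) → ℝ} (h : P ∈ poly s 0) :
    ∃ c : ℝ, P = fun _ => c := by
  refine Submodule.span_induction (p := fun P _ => ∃ c : ℝ, P = fun _ => c) ?_ ?_ ?_ ?_ h
  · rintro _ ⟨M, -, hM, rfl⟩
    have : M = ∅ := by simpa using hM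
    subst this
    exact ⟨1, by funext z; exact chi_empty z⟩
  · exact ⟨0, rfl⟩
  · rintro _ _ _ _ ⟨c, rfl⟩ ⟨c', rfl⟩
    exact ⟨c + c', rfl⟩
  · rintro a _ _ ⟨c, rfl⟩
    exact ⟨a * c, rfl⟩

theorem poly_empty {d : ℕ} {P : (V → Bool) → ℝ} (h : P ∈ poly (∅ : Finset V) d) :
    ∃ c : ℝ, P = fun _ => c := by
  refine Submodule.span_induction (p := fun P _ => ∃ c : ℝ, P = fun _ => c) ?_ ?_ ?_ ?_ h
  · rintro _ ⟨M, hM, -, rfl⟩
    have : M = ∅ := by simpa using hM
    subst this
    exact ⟨1, by funext z; exact chi_empty z⟩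
  · exact ⟨0, rfl⟩
  · rintro _ _ _ _ ⟨c, rfl⟩ ⟨c', rfl⟩
    exact ⟨c + c', rfl⟩
  · rintro a _ _ ⟨c, rfl⟩
    exact ⟨a * c, rfl⟩

theorem poly_insert {s : Finset V} {v : V} {d : ℕ} {P : (V → Bool) → ℝ}
    (h : P ∈ poly (insert v s) (d + 1)) :
    ∃ Q ∈ poly s (d + 1), ∃ R ∈ poly s d, P = fun z => Q z + sg (z v) * R z := by
  refine Submodule.span_induction (p := fun P _ => ∃ Q ∈ poly s (d + 1), ∃ R ∈ poly s d,
    P = fun z => Q z + sg (z v) * R z) ?_ ?_ ?_ ?_ h
  · rintro _ ⟨M, hM, hd, rfl⟩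
    by_cases hvM : v ∈ M
    · refine ⟨0, Submodule.zero_mem _, chi (M.erase v), chi_mem_poly ?_ ?_, ?_⟩
      · intro x hx
        have := hM (mem_of_mem_erase hx)
        rcases mem_insert.mp this with h | h
        · exact absurd h (ne_of_mem_erase hx)
        · exact h
      · rw [card_erase_of_mem hvM]; omega
      · funext z
        simp only [Pi.zero_apply, zero_add]
        unfold chi
        rw [mul_prod_erase M (fun i => sg (z i)) hvM]
    · refine ⟨chi M, chi_mem_poly ?_ hd, 0, Submodule.zero_mem _, ?_⟩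
      · intro x hx
        rcases mem_insert.mp (hM hx) with h | h
        · exact absurd (h ▸ hx) hvM
        · exact h
      · funext z; simp
  · exact ⟨0, Submodule.zero_mem _, 0, Submodule.zero_mem _, by funext z; simp⟩
  · rintro _ _ _ _ ⟨Q, hQ, R, hR, rfl⟩ ⟨Q', hQ', R', hR', rfl⟩
    refine ⟨Q + Q', Submodule.add_mem _ hQ hQ', R + R', Submodule.add_mem _ hR hR', ?_⟩
    funext z; simp only [Pi.add_apply]; ring
  · rintro a _ _ ⟨Q, hQ, R, hR, rfl⟩
    refine ⟨a • Q, Submodule.smul_mem _ _ hQ, a • R, Submodule.smul_mem _ _ hR, ?_⟩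
    funext z; simp only [Pi.smul_apply, smul_eq_mul]; ring

theorem poly_flp {s : Finset V} {v : V} (hv : v ∉ s) {d : ℕ} {P : (V → Bool) → ℝ}
    (h : P ∈ poly s d) (z : V → Bool) : P (flp v z) = P z := by
  refine Submodule.span_induction (p := fun P _ => P (flp v z) = P z) ?_ ?_ ?_ ?_ h
  · rintro _ ⟨M, hM, -, rfl⟩
    exact chi_flp_not_mem (fun h => hv (hM h)) z
  · rfl
  · intro P Q _ _ hP hQ; simp only [Pi.add_apply, hP, hQ]
  · intro a P _ hP; simp only [Pi.smul_apply, hP]

theorem mean_mul_sq_le (P Q : (V → Bool) → ℝ) :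
    (mean (fun z => P z * Q z)) ^ 2 ≤ mean (fun z => P z ^ 2) * mean (fun z => Q z ^ 2) := by
  unfold mean
  have h := sum_mul_sq_le_sq_mul_sq (univ : Finset (V → Bool)) P Q
  rw [div_pow, div_mul_div_comm, ← sq]
  gcongr

/-- **Bonami's inequality** (fourth moment, degree at most `d`). -/
theorem bonami (s : Finset V) : ∀ (d : ℕ) (P : (V → Bool) → ℝ), P ∈ poly s d →
    mean (fun z => P z ^ 4) ≤ 9 ^ d * (mean (fun z => P z ^ 2)) ^ 2 := by
  induction s using Finset.induction_on with
  | empty =>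
    intro d P hP
    obtain ⟨c, rfl⟩ := poly_empty hP
    rw [mean_const, mean_const]
    have : (1 : ℝ) ≤ 9 ^ d := one_le_pow₀ (by norm_num)
    nlinarith [sq_nonneg (c ^ 2)]
  | insert v s hv ih =>
    intro d P hP
    rcases d with _ | d
    · obtain ⟨c, rfl⟩ := poly_zero hP
      rw [mean_const, mean_const]
      nlinarith [sq_nonneg (c ^ 2)]
    · obtain ⟨Q, hQ, R, hR, rfl⟩ := poly_insert hP
      have hQ4 := ih _ _ hQ
      have hR4 := ih _ _ hR
      have hsg : ∀ z : V → Bool, sg (z v) ^ 2 = 1 := fun z => by rw [sq, sg_sq]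
      have hodd : ∀ T : (V → Bool) → ℝ, (∀ z, T (flp v z) = T z) →
          mean (fun z => sg (z v) * T z) = 0 := by
        intro T hT
        refine mean_eq_zero_of_flp (v := v) fun z => ?_
        rw [flp_same, sg_not, hT]; ring
      have hQf := poly_flp hv hQ
      have hRf := poly_flp hv hR
      have e2 : mean (fun z => (Q z + sg (z v) * R z) ^ 2)
          = mean (fun z => Q z ^ 2) + mean (fun z => R z ^ 2) := by
        have : (fun z : V → Bool => (Q z + sg (z v) * R z) ^ 2)
            = fun z => (Q z ^ 2 + R z ^ 2) + sg (z v) * (2 * Q z * R z) := by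
          funext z
          have := hsg z
          calc (Q z + sg (z v) * R z) ^ 2
              = Q z ^ 2 + sg (z v) ^ 2 * R z ^ 2 + sg (z v) * (2 * Q z * R z) := by ring
            _ = _ := by rw [this]; ring
        rw [this, mean_add, mean_add, hodd _ (fun z => by rw [hQf, hRf]), add_zero]
      have e4 : mean (fun z => (Q z + sg (z v) * R z) ^ 4)
          = mean (fun z => Q z ^ 4) + 6 * mean (fun z => Q z ^ 2 * R z ^ 2)
            + mean (fun z => R z ^ 4) := by
        have : (fun z : V → Bool => (Q z + sg (z v) * R z) ^ 4)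
            = fun z => (Q z ^ 4 + 6 * (Q z ^ 2 * R z ^ 2) + R z ^ 4)
              + sg (z v) * (4 * Q z ^ 3 * R z + 4 * Q z * R z ^ 3) := by
          funext z
          have h := hsg z
          have h3 : sg (z v) ^ 3 = sg (z v) := by rw [pow_succ, h, one_mul]
          have h4 : sg (z v) ^ 4 = 1 := by
            rw [show (4 : ℕ) = 2 * 2 from rfl, pow_mul, h, one_pow]
          calc (Q z + sg (z v) * R z) ^ 4
              = Q z ^ 4 + 6 * (sg (z v) ^ 2) * (Q z ^ 2 * R z ^ 2) + sg (z v) ^ 4 * R z ^ 4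
                + (sg (z v) * (4 * Q z ^ 3 * R z) + sg (z v) ^ 3 * (4 * Q z * R z ^ 3)) := by ring
            _ = _ := by rw [h, h3, h4]; ring
        rw [this, mean_add, mean_add, mean_add, mean_const_mul,
          hodd _ (fun z => by rw [hQf, hRf]), add_zero]
      rw [e2, e4]
      set q := mean (fun z => Q z ^ 2) with hq
      set r := mean (fun z => R z ^ 2) with hr
      have hq0 : 0 ≤ q := mean_nonneg fun z => sq_nonneg _
      have hr0 : 0 ≤ r := mean_nonneg fun z => sq_nonneg _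
      have hcs := mean_mul_sq_le (fun z => Q z ^ 2) (fun z => R z ^ 2)
      have hcs' : (mean fun z => Q z ^ 2 * R z ^ 2) ^ 2 ≤ (3 * 9 ^ d * (q * r)) ^ 2 := by
        refine hcs.trans ?_
        have h1 : (mean fun z => (Q z ^ 2) ^ 2) ≤ 9 ^ (d + 1) * q ^ 2 := by
          refine le_trans (le_of_eq ?_) hQ4
          congr 1; funext z; ring
        have h2 : (mean fun z => (R z ^ 2) ^ 2) ≤ 9 ^ d * r ^ 2 := by
          refine le_trans (le_of_eq ?_) hR4
          congr 1; funext z; ring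
        have h3 : 0 ≤ (mean fun z => (R z ^ 2) ^ 2) := mean_nonneg fun z => sq_nonneg _
        calc (mean fun z => (Q z ^ 2) ^ 2) * (mean fun z => (R z ^ 2) ^ 2)
            ≤ (9 ^ (d + 1) * q ^ 2) * (9 ^ d * r ^ 2) :=
              mul_le_mul h1 h2 h3 (by positivity)
          _ = (3 * 9 ^ d * (q * r)) ^ 2 := by ring
      have hmid : (mean fun z => Q z ^ 2 * R z ^ 2) ≤ 3 * 9 ^ d * (q * r) :=
        le_of_sq_le_sq hcs' (by positivity)
      have hp : (0 : ℝ) ≤ 9 ^ d := by positivity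
      calc (mean fun z => Q z ^ 4) + 6 * (mean fun z => Q z ^ 2 * R z ^ 2)
            + (mean fun z => R z ^ 4)
          ≤ 9 ^ (d + 1) * q ^ 2 + 6 * (3 * 9 ^ d * (q * r)) + 9 ^ d * r ^ 2 := by
            linarith
        _ ≤ 9 ^ (d + 1) * (q + r) ^ 2 := by
            have : 9 ^ (d + 1) * (q + r) ^ 2
              = 9 ^ (d + 1) * q ^ 2 + 6 * (3 * 9 ^ d * (q * r)) + 9 ^ d * r ^ 2
                + 8 * (9 ^ d * r ^ 2) := by ring
            rw [this]
            have : 0 ≤ 8 * (9 ^ d * r ^ 2) := by positivity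
            linarith

/-- lower bound for the first absolute moment of a polynomial of degree at most `3` -/
theorem mean_abs_ge {s : Finset V} {P : (V → Bool) → ℝ} (hP : P ∈ poly s 3) {σ : ℝ}
    (hσ : 0 < σ) (h2 : mean (fun z => P z ^ 2) = σ ^ 2) :
    σ / 29 ≤ mean (fun z => |P z|) := by
  have h4 := bonami s 3 P hP
  rw [h2] at h4
  -- pointwise: t ≥ (5/2) (t²/τ - t⁴/τ³)
  set τ := 46 * σ with hτ
  have hτ0 : 0 < τ := by positivity
  have hpt : ∀ t : ℝ, 5 / 2 * (t ^ 2 / τ - t ^ 4 / τ ^ 3) ≤ |t| := by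
    intro t
    set u := |t| / τ with hu
    have hu0 : 0 ≤ u := by positivity
    have ht : |t| = u * τ := by rw [hu]; field_simp
    have h1 : t ^ 2 = (u * τ) ^ 2 := by rw [← ht, sq_abs]
    have h3 : t ^ 4 = (u * τ) ^ 4 := by
      rw [← ht]
      calc t ^ 4 = (t ^ 2) ^ 2 := by ring
        _ = (|t| ^ 2) ^ 2 := by rw [sq_abs]
        _ = |t| ^ 4 := by ring
    rw [ht, h1, h3]
    have h5 : 5 / 2 * ((u * τ) ^ 2 / τ - (u * τ) ^ 4 / τ ^ 3) = 5 / 2 * (u ^ 2 - u ^ 4) * τ := by
      field_simp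
    rw [h5]
    refine mul_le_mul_of_nonneg_right ?_ hτ0.le
    -- u - u^3 ≤ 2/5
    have h6 : u - u ^ 3 ≤ 2 / 5 := by
      nlinarith [sq_nonneg (u - 3 / 5), mul_nonneg hu0 (sq_nonneg (u - 3 / 5)),
        sq_nonneg (u - 577 / 1000), mul_nonneg hu0 (sq_nonneg (u - 577 / 1000))]
    nlinarith
  have hm : mean (fun z => 5 / 2 * (P z ^ 2 / τ - P z ^ 4 / τ ^ 3)) ≤ mean (fun z => |P z|) :=
    mean_mono fun z => hpt _
  have he : mean (fun z => 5 / 2 * (P z ^ 2 / τ - P z ^ 4 / τ ^ 3))
      = 5 / 2 * (mean (fun z => P z ^ 2) / τ - mean (fun z => P z ^ 4) / τ ^ 3) := by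
    rw [mean_const_mul, mean_sub]
    congr 2
    · rw [div_eq_mul_inv, mul_comm, ← mean_const_mul]
      congr 1; funext z; rw [div_eq_mul_inv]; ring
    · rw [div_eq_mul_inv, mul_comm, ← mean_const_mul]
      congr 1; funext z; rw [div_eq_mul_inv]; ring
  rw [he, h2] at hm
  refine le_trans ?_ hm
  have h7 : mean (fun z => P z ^ 4) / τ ^ 3 ≤ 9 ^ 3 * (σ ^ 2) ^ 2 / τ ^ 3 := by gcongr
  have h8 : 5 / 2 * (σ ^ 2 / τ - 9 ^ 3 * (σ ^ 2) ^ 2 / τ ^ 3)
      ≤ 5 / 2 * (σ ^ 2 / τ - mean (fun z => P z ^ 4) / τ ^ 3) := by linarith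
  refine le_trans ?_ h8
  have h9 : σ ^ 2 / τ = σ / 46 := by rw [hτ]; field_simp
  have h10 : 9 ^ 3 * (σ ^ 2) ^ 2 / τ ^ 3 = 729 / 97336 * σ := by
    rw [hτ]; field_simp; norm_num
  rw [h9, h10]
  nlinarith

end Pool.Agent.Work.MP_c0cec8_co
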