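import Pool.Agent.Work.MP_c0cec8_co.Quad

/-!
# The constant 3/8 can be improved for graphs of bounded degree

For every finite simple graph `G` of maximum degree at most `Δ` (`Δ ≥ 1`),
`cr₂ G ≤ (3/8 - 1/(25000 Δ³)) cr G`.

Proof: the random 2-colouring behind the bound `3/8` is changed at a sparse random set of
vertices, each of which takes the colour that is better for the crossings at this vertex.  The
expected gain at a vertex is the first absolute moment of a cubic polynomial of random signs, which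
is bounded below with the inequality of Bonami at vertices with few crossings, and by a single
linear coefficient at vertices with many crossings.
-/

namespace Pool.Agent.Work.MP_c0cec8_co

open Finset

theorem bounded_degree {V : Type*} [Finite V] (G : SimpleGraph V) (Δ : ℕ) (hΔ : 1 ≤ Δ)
    (hdeg : ∀ v : V, (G.neighborSet v).ncard ≤ Δ) :
    (cr₂ G : ℝ) ≤ (3 / 8 - 1 / (25000 * (Δ : ℝ) ^ 3)) * (cr G : ℝ) := by
  classical
  have := Fintype.ofFinite V
  obtain ⟨D, hD⟩ := exists_cr G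
  set Q := quad D.crossGraph with hQdef
  have hQ : Sym4 Q := D.sym4
  have hN : ∀ v, (G.neighborFinset v).card ≤ Δ := by
    intro v
    have := hdeg v
    rwa [Set.ncard_eq_toFinset_card', ← SimpleGraph.neighborFinset_def] at this
  have hQN : ∀ a b c d : V, (a, b, c, d) ∈ Q → b ∈ G.neighborFinset a := by
    intro a b c d h
    obtain ⟨-, -, h3⟩ := mem_quad.mp h
    rw [SimpleGraph.mem_neighborFinset]
    exact h3.1
  obtain ⟨x, hx⟩ := core hQ hΔ (fun v => G.neighborFinset v) hN hQN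
  let G₁ : SimpleGraph V :=
    { Adj := fun u v => G.Adj u v ∧ x u ≠ x v
      symm := ⟨fun u v h => ⟨h.1.symm, h.2.symm⟩⟩
      loopless := ⟨fun u h => h.2 rfl⟩ }
  let G₂ : SimpleGraph V :=
    { Adj := fun u v => G.Adj u v ∧ x u = x v
      symm := ⟨fun u v h => ⟨h.1.symm, h.2.symm⟩⟩
      loopless := ⟨fun u h => G.loopless.irrefl u h.1⟩ }
  have hsup : G₁ ⊔ G₂ = G := by
    ext u v
    simp only [SimpleGraph.sup_adj, G₁, G₂]
    tauto
  have hdis : Disjoint G₁ G₂ := by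
    rw [SimpleGraph.disjoint_left]
    intro u v h h'
    exact h.2 h'.2
  have h1 := cr₂_le hsup hdis
  have h2 := cr_le_sum D (H := G₁) (by rw [← hsup]; exact le_sup_left) (fun _ => true)
    (fun _ _ _ => rfl) (fun q => if x q.1 ≠ x q.2.1 ∧ x q.2.2.1 ≠ x q.2.2.2 then 1 else 0)
    (fun q => by split_ifs <;> norm_num)
    (fun q _ ha hb _ => by rw [if_pos ⟨ha.2, hb.2⟩])
  have h3 := cr_le_sum D (H := G₂) (by rw [← hsup]; exact le_sup_right) x
    (fun _ _ h => h.2)
    (fun q => if x q.1 = x q.2.1 ∧ x q.2.2.1 = x q.2.2.2 ∧ x q.1 = x q.2.2.1 then 1 else 0)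
    (fun q => by split_ifs <;> norm_num)
    (fun q _ ha hb hc => by rw [if_pos ⟨ha.2, hb.2, hc⟩])
  have h4 : (8 * (cr G₁ + cr G₂) : ℝ) ≤ ∑ q ∈ Q, surv x q := by
    have h5 : ∑ q ∈ Q, surv x q
        = ∑ q ∈ Q, (if x q.1 ≠ x q.2.1 ∧ x q.2.2.1 ≠ x q.2.2.2 then (1 : ℝ) else 0)
        + ∑ q ∈ Q, (if x q.1 = x q.2.1 ∧ x q.2.2.1 = x q.2.2.2 ∧ x q.1 = x q.2.2.1
            then (1 : ℝ) else 0) := by
      rw [← sum_add_distrib]
      refine sum_congr rfl fun q _ => ?_
      unfold surv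
      by_cases c1 : x q.1 = x q.2.1
      · have n1 : ¬ (x q.1 ≠ x q.2.1 ∧ x q.2.2.1 ≠ x q.2.2.2) := fun h => h.1 c1
        rw [if_neg n1, zero_add]
        refine if_congr ?_ rfl rfl
        tauto
      · have n1 : ¬ (x q.1 = x q.2.1 ∧ x q.2.2.1 = x q.2.2.2 ∧ x q.1 = x q.2.2.1) :=
          fun h => c1 h.1
        rw [if_neg n1, add_zero]
        refine if_congr ?_ rfl rfl
        tauto
    rw [h5]
    linarith
  have h6 : ((Q.card : ℕ) : ℝ) = 8 * (cr G : ℝ) := by
    have := card_quad D.crossGraph D.not_isDiag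
    rw [hQdef, this, ← hD]
    push_cast
    rfl
  have h7 : (8 * (cr₂ G : ℝ)) ≤ 8 * (cr G₁ + cr G₂) := by
    have : (cr₂ G : ℝ) ≤ cr G₁ + cr G₂ := by exact_mod_cast h1
    linarith
  rw [h6] at hx
  have h8 : 8 * (cr₂ G : ℝ) ≤ 8 * ((3 / 8 - 1 / (25000 * (Δ : ℝ) ^ 3)) * (cr G : ℝ)) := by
    calc 8 * (cr₂ G : ℝ) ≤ ∑ q ∈ Q, surv x q := h7.trans h4
      _ ≤ _ := hx
      _ = _ := by ring
  linarith

end Pool.Agent.Work.MP_c0cec8_co
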