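import Pool.Agent.Work.MP_c0cec8_co.Bonami

/-!
# The combinatorial core: beating the random 2-colouring in bounded degree
-/

set_option linter.unusedSectionVars false

namespace Pool.Agent.Work.MP_c0cec8_co

open Finset

variable {V : Type*} [Fintype V] [DecidableEq V]

/-- indicator of survival of the crossing `ab × cd` under the colouring `z`: both edges are
bichromatic, or all four vertices have the same colour -/
def surv (z : V → Bool) (q : V × V × V × V) : ℝ :=
  if (z q.1 ≠ z q.2.1 ∧ z q.2.2.1 ≠ z q.2.2.2) ∨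
    (z q.1 = z q.2.1 ∧ z q.2.2.1 = z q.2.2.2 ∧ z q.1 = z q.2.2.1) then 1 else 0

theorem surv_nonneg (z : V → Bool) (q : V × V × V × V) : 0 ≤ surv z q := by
  unfold surv; split_ifs <;> norm_num

theorem surv_le_one (z : V → Bool) (q : V × V × V × V) : surv z q ≤ 1 := by
  unfold surv; split_ifs <;> norm_num

theorem surv_congr {z z' : V → Bool} {q : V × V × V × V} (h1 : z q.1 = z' q.1)
    (h2 : z q.2.1 = z' q.2.1) (h3 : z q.2.2.1 = z' q.2.2.1) (h4 : z q.2.2.2 = z' q.2.2.2) :
    surv z q = surv z' q := by
  unfold surv; rw [h1, h2, h3, h4]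

theorem surv_swap1 (z : V → Bool) (a b c d : V) : surv z (b, a, c, d) = surv z (a, b, c, d) := by
  unfold surv
  cases z a <;> cases z b <;> cases z c <;> cases z d <;> simp

theorem surv_swap2 (z : V → Bool) (a b c d : V) : surv z (c, d, a, b) = surv z (a, b, c, d) := by
  unfold surv
  cases z a <;> cases z b <;> cases z c <;> cases z d <;> simp

theorem surv_eq (z : V → Bool) (a b c d : V) : surv z (a, b, c, d) =
    3 / 8 + 1 / 8 * (- (sg (z a) * sg (z b)) - sg (z c) * sg (z d) + sg (z a) * sg (z c)
      + sg (z a) * sg (z d) + sg (z b) * sg (z c) + sg (z b) * sg (z d))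
      + 3 / 8 * (sg (z a) * sg (z b) * sg (z c) * sg (z d)) := by
  unfold surv sg
  cases z a <;> cases z b <;> cases z c <;> cases z d <;> norm_num

/-- the derivative polynomial -/
noncomputable def dd (z : V → Bool) (b c d : V) : ℝ :=
  - sg (z b) / 8 + sg (z c) / 8 + sg (z d) / 8 + 3 / 8 * (sg (z b) * sg (z c) * sg (z d))

theorem surv_diff (z : V → Bool) {a b c d : V} (hab : b ≠ a) (hac : c ≠ a) (had : d ≠ a) :
    surv (Function.update z a true) (a, b, c, d) - surv (Function.update z a false) (a, b, c, d)
      = 2 * dd z b c d := by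
  rw [surv_eq, surv_eq]
  simp only [Function.update_self, Function.update_of_ne hab, Function.update_of_ne hac,
    Function.update_of_ne had, dd]
  unfold sg
  simp only [if_true, Bool.false_eq_true, if_false]
  ring

theorem mean_sg_mul {a b : V} (hab : a ≠ b) : mean (fun z => sg (z a) * sg (z b)) = 0 := by
  refine mean_eq_zero_of_flp (v := a) fun z => ?_
  rw [flp_same, flp_ne hab.symm, sg_not]; ring

theorem mean_surv {a b c d : V} (h1 : a ≠ b) (h2 : a ≠ c) (h3 : a ≠ d) (h4 : b ≠ c) (h5 : b ≠ d)
    (h6 : c ≠ d) : mean (fun z => surv z (a, b, c, d)) = 3 / 8 := by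
  have h7 : mean (fun z => sg (z a) * sg (z b) * sg (z c) * sg (z d)) = 0 := by
    refine mean_eq_zero_of_flp (v := a) fun z => ?_
    rw [flp_same, flp_ne h1.symm, flp_ne h2.symm, flp_ne h3.symm, sg_not]; ring
  have e : (fun z => surv z (a, b, c, d)) = fun z : V → Bool =>
      ((((((((3 / 8 : ℝ) + (-1 / 8) * (sg (z a) * sg (z b))) + (-1 / 8) * (sg (z c) * sg (z d)))
        + (1 / 8) * (sg (z a) * sg (z c))) + (1 / 8) * (sg (z a) * sg (z d)))
        + (1 / 8) * (sg (z b) * sg (z c))) + (1 / 8) * (sg (z b) * sg (z d)))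
        + (3 / 8) * (sg (z a) * sg (z b) * sg (z c) * sg (z d))) := by
    funext z; rw [surv_eq]; ring
  rw [e]
  simp only [mean_add, mean_const_mul, mean_const, mean_sg_mul h1, mean_sg_mul h2, mean_sg_mul h3,
    mean_sg_mul h4, mean_sg_mul h5, mean_sg_mul h6, h7]
  norm_num

/-! ### The random set `S` -/

/-- weight of `S` when every vertex is in `S` with probability `p` -/
def wt (p : ℝ) (S : Finset V) : ℝ := (∏ _i ∈ S, p) * ∏ _i ∈ univ \ S, (1 - p)

theorem wt_nonneg {p : ℝ} (h0 : 0 ≤ p) (h1 : p ≤ 1) (S : Finset V) : 0 ≤ wt p S := by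
  unfold wt
  have : 0 ≤ 1 - p := by linarith
  exact mul_nonneg (prod_nonneg fun _ _ => h0) (prod_nonneg fun _ _ => this)

theorem sum_wt (p : ℝ) : ∑ S : Finset V, wt p S = 1 := by
  have h := Finset.prod_add (fun _ : V => p) (fun _ : V => 1 - p) univ
  rw [powerset_univ] at h
  unfold wt
  rw [← h]
  simp

theorem sum_wt_mem (p : ℝ) (v : V) : ∑ S : Finset V, wt p S * (if v ∈ S then 1 else 0) = p := by
  have h := Finset.prod_add (fun _ : V => p) (fun i : V => if i = v then 0 else 1 - p) univ
  rw [powerset_univ] at h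
  have e : ∀ S : Finset V, wt p S * (if v ∈ S then 1 else 0)
      = (∏ _i ∈ S, p) * ∏ i ∈ univ \ S, (if i = v then 0 else 1 - p) := by
    intro S
    unfold wt
    by_cases hv : v ∈ S
    · rw [if_pos hv, mul_one]
      congr 1
      refine prod_congr rfl fun i hi => ?_
      rw [if_neg]
      rintro rfl
      exact (mem_sdiff.mp hi).2 hv
    · rw [if_neg hv, mul_zero, eq_comm]
      have : v ∈ univ \ S := by simp [hv]
      rw [prod_eq_zero this (by simp), mul_zero]
  rw [sum_congr rfl fun S _ => e S, ← h, ← mul_prod_erase univ _ (mem_univ v)]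
  simp only [if_true, add_zero]
  rw [prod_eq_one, mul_one]
  intro i hi
  rw [if_neg (ne_of_mem_erase hi)]; ring

theorem sum_wt_mem_mem (p : ℝ) {v w : V} (hvw : v ≠ w) :
    ∑ S : Finset V, wt p S * ((if v ∈ S then 1 else 0) * (if w ∈ S then 1 else 0)) = p ^ 2 := by
  have h := Finset.prod_add (fun _ : V => p)
    (fun i : V => if i = v ∨ i = w then 0 else 1 - p) univ
  rw [powerset_univ] at h
  have e : ∀ S : Finset V, wt p S * ((if v ∈ S then 1 else 0) * (if w ∈ S then 1 else 0))
      = (∏ _i ∈ S, p) * ∏ i ∈ univ \ S, (if i = v ∨ i = w then 0 else 1 - p) := by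
    intro S
    unfold wt
    by_cases hv : v ∈ S
    · by_cases hw : w ∈ S
      · rw [if_pos hv, if_pos hw, mul_one, mul_one]
        congr 1
        refine prod_congr rfl fun i hi => ?_
        rw [if_neg]
        rintro (rfl | rfl)
        · exact (mem_sdiff.mp hi).2 hv
        · exact (mem_sdiff.mp hi).2 hw
      · rw [if_neg hw, mul_zero, mul_zero, eq_comm]
        have : w ∈ univ \ S := by simp [hw]
        rw [prod_eq_zero this (by simp), mul_zero]
    · rw [if_neg hv, zero_mul, mul_zero, eq_comm]
      have : v ∈ univ \ S := by simp [hv]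
      rw [prod_eq_zero this (by simp), mul_zero]
  rw [sum_congr rfl fun S _ => e S, ← h, ← mul_prod_erase univ _ (mem_univ v),
    ← mul_prod_erase (univ.erase v) _ (mem_erase.mpr ⟨hvw.symm, mem_univ w⟩)]
  simp only [true_or, or_true, if_true, add_zero]
  rw [prod_eq_one, mul_one]
  · ring
  · intro i hi
    have h1 := ne_of_mem_erase hi
    have h2 := ne_of_mem_erase (mem_of_mem_erase hi)
    rw [if_neg (by tauto)]; ring

/-! ### The improved colouring -/

/-- local cost at `v` -/
def hcost (Q : Finset (V × V × V × V)) (v : V) (z : V → Bool) (t : Bool) : ℝ :=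
  ∑ q ∈ Q.filter (fun q => q.1 = v), surv (Function.update z v t) q

/-- the better colour for `v` -/
noncomputable def best (Q : Finset (V × V × V × V)) (v : V) (z : V → Bool) : Bool :=
  if hcost Q v z true ≤ hcost Q v z false then true else false

/-- the polynomial of the local gain at `v` -/
noncomputable def pv (Q : Finset (V × V × V × V)) (v : V) (z : V → Bool) : ℝ :=
  ∑ q ∈ Q.filter (fun q => q.1 = v), dd z q.2.1 q.2.2.1 q.2.2.2

/-- the four vertices of every quadruple are distinct -/
def Dist (Q : Finset (V × V × V × V)) : Prop :=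
  ∀ a b c d : V, (a, b, c, d) ∈ Q → a ≠ b ∧ a ≠ c ∧ a ≠ d ∧ b ≠ c ∧ b ≠ d ∧ c ≠ d

theorem hcost_diff {Q : Finset (V × V × V × V)} (hQ : Dist Q) (v : V) (z : V → Bool) :
    hcost Q v z true - hcost Q v z false = 2 * pv Q v z := by
  unfold hcost pv
  rw [← sum_sub_distrib, mul_sum]
  refine sum_congr rfl fun q hq => ?_
  obtain ⟨a, b, c, d⟩ := q
  obtain ⟨hq', hav⟩ := mem_filter.mp hq
  simp only at hav
  subst hav
  obtain ⟨h1, h2, h3, -⟩ := hQ a b c d hq'
  exact surv_diff z h1.symm h2.symm h3.symm

theorem hcost_flp (Q : Finset (V × V × V × V)) (v : V) (z : V → Bool) (t : Bool) :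
    hcost Q v (flp v z) t = hcost Q v z t := by
  unfold hcost flp
  simp only [Function.update_idem]

theorem update_self_eq (v : V) (z : V → Bool) : Function.update z v (z v) = z :=
  Function.update_eq_self v z

/-- expected gain at `v` -/
theorem mean_gain {Q : Finset (V × V × V × V)} (hQ : Dist Q) (v : V) :
    mean (fun z => ∑ q ∈ Q.filter (fun q => q.1 = v),
      (surv z q - surv (Function.update z v (best Q v z)) q)) = mean (fun z => |pv Q v z|) := by
  have h1 : (fun z => ∑ q ∈ Q.filter (fun q => q.1 = v),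
      (surv z q - surv (Function.update z v (best Q v z)) q))
      = fun z => hcost Q v z (z v) - hcost Q v z (best Q v z) := by
    funext z
    rw [sum_sub_distrib]
    unfold hcost
    rw [update_self_eq]
  have h2 : mean (fun z => hcost Q v z (z v)) =
      mean (fun z => 1 / 2 * (hcost Q v z true + hcost Q v z false)) := by
    have h3 := mean_flp v (fun z => hcost Q v z (z v))
    simp only [hcost_flp, flp_same] at h3
    have h4 : (fun z : V → Bool => hcost Q v z true + hcost Q v z false)
        = fun z => hcost Q v z (z v) + hcost Q v z (!z v) := by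
      funext z
      cases z v
      · simp only [Bool.not_false]; ring
      · simp only [Bool.not_true]
    rw [mean_const_mul, h4, mean_add, h3]
    ring
  rw [h1, mean_sub, h2, ← mean_sub]
  congr 1
  funext z
  have h5 := hcost_diff hQ v z
  unfold best
  split_ifs with h
  · rw [abs_of_nonpos (by linarith)]; linarith
  · push Not at h
    rw [abs_of_pos (by linarith)]; linarith

/-- the mixture: vertices of `S` get their best colour, the others keep the colour of `z` -/
noncomputable def mix (Q : Finset (V × V × V × V)) (S : Finset V) (z : V → Bool) : V → Bool :=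
  fun v => if v ∈ S then best Q v z else z v

/-- indicator -/
def ind (S : Finset V) (v : V) : ℝ := if v ∈ S then 1 else 0

theorem surv_mix_le {Q : Finset (V × V × V × V)} (S : Finset V) (z : V → Bool) {a b c d : V}
    (h1 : a ≠ b) (h2 : a ≠ c) (h3 : a ≠ d) (h4 : b ≠ c) (h5 : b ≠ d) (h6 : c ≠ d) :
    surv (mix Q S z) (a, b, c, d) ≤ surv z (a, b, c, d)
      + (ind S a * (surv (Function.update z a (best Q a z)) (a, b, c, d) - surv z (a, b, c, d))
        + ind S b * (surv (Function.update z b (best Q b z)) (a, b, c, d) - surv z (a, b, c, d))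
        + ind S c * (surv (Function.update z c (best Q c z)) (a, b, c, d) - surv z (a, b, c, d))
        + ind S d * (surv (Function.update z d (best Q d z)) (a, b, c, d) - surv z (a, b, c, d)))
      + (ind S a * ind S b + ind S a * ind S c + ind S a * ind S d + ind S b * ind S c
        + ind S b * ind S d + ind S c * ind S d) * (1 + surv z (a, b, c, d)) := by
  have hf0 := surv_nonneg z (a, b, c, d)
  have hx1 := surv_le_one (mix Q S z) (a, b, c, d)
  have ha0 := surv_nonneg (Function.update z a (best Q a z)) (a, b, c, d)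
  have hb0 := surv_nonneg (Function.update z b (best Q b z)) (a, b, c, d)
  have hc0 := surv_nonneg (Function.update z c (best Q c z)) (a, b, c, d)
  have hd0 := surv_nonneg (Function.update z d (best Q d z)) (a, b, c, d)
  have e0 : a ∉ S → b ∉ S → c ∉ S → d ∉ S →
      surv (mix Q S z) (a, b, c, d) = surv z (a, b, c, d) := fun ha hb hc hd =>
    surv_congr (by simp [mix, ha]) (by simp [mix, hb]) (by simp [mix, hc]) (by simp [mix, hd])
  have ea : a ∈ S → b ∉ S → c ∉ S → d ∉ S → surv (mix Q S z) (a, b, c, d)
      = surv (Function.update z a (best Q a z)) (a, b, c, d) := fun ha hb hc hd =>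
    surv_congr (by simp [mix, ha]) (by simp [mix, hb, h1.symm]) (by simp [mix, hc, h2.symm])
      (by simp [mix, hd, h3.symm])
  have eb : a ∉ S → b ∈ S → c ∉ S → d ∉ S → surv (mix Q S z) (a, b, c, d)
      = surv (Function.update z b (best Q b z)) (a, b, c, d) := fun ha hb hc hd =>
    surv_congr (by simp [mix, ha, h1]) (by simp [mix, hb]) (by simp [mix, hc, h4.symm])
      (by simp [mix, hd, h5.symm])
  have ec : a ∉ S → b ∉ S → c ∈ S → d ∉ S → surv (mix Q S z) (a, b, c, d)
      = surv (Function.update z c (best Q c z)) (a, b, c, d) := fun ha hb hc hd =>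
    surv_congr (by simp [mix, ha, h2]) (by simp [mix, hb, h4]) (by simp [mix, hc])
      (by simp [mix, hd, h6.symm])
  have ed : a ∉ S → b ∉ S → c ∉ S → d ∈ S → surv (mix Q S z) (a, b, c, d)
      = surv (Function.update z d (best Q d z)) (a, b, c, d) := fun ha hb hc hd =>
    surv_congr (by simp [mix, ha, h3]) (by simp [mix, hb, h5]) (by simp [mix, hc, h6])
      (by simp [mix, hd])
  by_cases ha : a ∈ S <;> by_cases hb : b ∈ S <;> by_cases hc : c ∈ S <;> by_cases hd : d ∈ S <;>
    simp only [ind, ha, hb, hc, hd, if_true, if_false] <;>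
    first
    | (have := e0 ha hb hc hd; linarith)
    | (have := ea ha hb hc hd; linarith)
    | (have := eb ha hb hc hd; linarith)
    | (have := ec ha hb hc hd; linarith)
    | (have := ed ha hb hc hd; linarith)
    | linarith

end Pool.Agent.Work.MP_c0cec8_co
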