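import Mathlib

/-!
# Good drawings, crossing number, biplanar crossing number

Definitions for MP_c0cec8_co and the geometric lemma: a drawing of `G` gives drawings of
subgraphs whose components are moved apart.
-/

namespace Pool.Agent.Work.MP_c0cec8_co

open Set

/-- The Euclidean plane. -/
abbrev Plane : Type := EuclideanSpace ℝ (Fin 2)

/-- `A` is a simple arc in the plane with end points `p` and `q`. -/
def IsArc (A : Set Plane) (p q : Plane) : Prop :=
  ∃ γ : unitInterval → Plane, Continuous γ ∧ Function.Injective γ ∧ γ 0 = p ∧ γ 1 = q ∧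
    Set.range γ = A

/-- A (good) drawing of the graph `G` in the plane: distinct vertices are distinct points, every
edge is a simple arc between its end vertices and passes through no other vertex, and any two
edges have at most one point in common. -/
structure Drawing {V : Type*} (G : SimpleGraph V) where
  /-- the point of a vertex -/
  pt : V → Plane
  /-- the arc of an edge -/
  arc : Sym2 V → Set Plane
  pt_inj : Function.Injective pt
  isArc : ∀ u v : V, G.Adj u v → IsArc (arc s(u, v)) (pt u) (pt v)
  only_ends : ∀ u v w : V, G.Adj u v → pt w ∈ arc s(u, v) → w = u ∨ w = v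
  meet : ∀ e ∈ G.edgeSet, ∀ f ∈ G.edgeSet, e ≠ f → (arc e ∩ arc f).Subsingleton

variable {V : Type*}

/-- The crossing graph of a drawing: its vertices are the edges of `G` (as elements of `Sym2 V`),
two of them are adjacent if they have no common end vertex and their arcs meet. -/
def Drawing.crossGraph {G : SimpleGraph V} (D : Drawing G) : SimpleGraph (Sym2 V) where
  Adj e f := e ∈ G.edgeSet ∧ f ∈ G.edgeSet ∧ e ≠ f ∧ (∀ v : V, v ∈ e → v ∉ f) ∧
    (D.arc e ∩ D.arc f).Nonempty
  symm := ⟨fun e f h => ⟨h.2.1, h.1, h.2.2.1.symm, fun v hv hv' => h.2.2.2.1 v hv' hv, by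
    rw [Set.inter_comm]; exact h.2.2.2.2⟩⟩
  loopless := ⟨fun e h => h.2.2.1 rfl⟩

/-- The number of crossings of a drawing: the number of unordered pairs of edges without a common
end vertex whose arcs meet (two such arcs meet in exactly one point). -/
noncomputable def Drawing.crossings {G : SimpleGraph V} (D : Drawing G) : ℕ :=
  D.crossGraph.edgeSet.ncard

/-- The crossing number: the least number of crossings of a drawing of `G`. -/
noncomputable def cr (G : SimpleGraph V) : ℕ :=
  sInf {n : ℕ | ∃ D : Drawing G, D.crossings = n}

/-- The biplanar crossing number: the least value of `cr G₁ + cr G₂` over all partitions of the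
edge set of `G` into the edge sets of `G₁` and `G₂`. -/
noncomputable def cr₂ (G : SimpleGraph V) : ℕ :=
  sInf {n : ℕ | ∃ G₁ G₂ : SimpleGraph V, G₁ ⊔ G₂ = G ∧ Disjoint G₁ G₂ ∧ n = cr G₁ + cr G₂}

end Pool.Agent.Work.MP_c0cec8_co
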