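import Pool.Agent.Work.MP_c0cec8_co.Bonami

/-!
# Means of functions of four coordinates
-/

set_option linter.unusedSectionVars false

namespace Pool.Agent.Work.MP_c0cec8_co

open Finset

variable {V : Type*} [Fintype V] [DecidableEq V]

theorem mean_update (a : V) (P : (V → Bool) → ℝ) :
    mean P = mean (fun z => (P (Function.update z a true) + P (Function.update z a false)) / 2) := by
  have h1 := mean_flp a P
  have h2 : (fun z => (P (Function.update z a true) + P (Function.update z a false)) / 2)
      = fun z => 1 / 2 * (P z + P (flp a z)) := by
    funext z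
    unfold flp
    have h3 : Function.update z a (z a) = z := Function.update_eq_self a z
    cases hz : z a
    · rw [hz] at h3
      rw [h3, Bool.not_false]; ring
    · rw [hz] at h3
      rw [h3, Bool.not_true]; ring
  rw [h2, mean_const_mul, mean_add, h1]; ring

/-- the mean of a function of four distinct coordinates -/
theorem mean_four {a b c d : V} (h1 : a ≠ b) (h2 : a ≠ c) (h3 : a ≠ d) (h4 : b ≠ c) (h5 : b ≠ d)
    (h6 : c ≠ d) (φ : Bool → Bool → Bool → Bool → ℝ) :
    mean (fun z => φ (z a) (z b) (z c) (z d)) =
      (∑ α, ∑ β, ∑ γ, ∑ δ, φ α β γ δ) / 16 := by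
  rw [mean_update a, mean_update b, mean_update c, mean_update d]
  simp only [Function.update_self, Function.update_of_ne h1.symm, Function.update_of_ne h2.symm,
    Function.update_of_ne h3.symm, Function.update_of_ne h4.symm, Function.update_of_ne h5.symm,
    Function.update_of_ne h6.symm, mean_const, Fintype.sum_bool]
  ring

end Pool.Agent.Work.MP_c0cec8_co
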