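import Pool.Agent.Work.MP_c0cec8_co.Drawing

/-!
# Geometric lemmas on drawings: existence, and moving components apart
-/

namespace Pool.Agent.Work.MP_c0cec8_co

open Set

variable {V : Type*}

theorem isArc_isCompact {A : Set Plane} {p q : Plane} (h : IsArc A p q) : IsCompact A := by
  obtain ⟨γ, hc, -, -, -, hr⟩ := h
  rw [← hr]
  exact isCompact_range hc

theorem isArc_nonempty {A : Set Plane} {p q : Plane} (h : IsArc A p q) : p ∈ A ∧ q ∈ A := by
  obtain ⟨γ, -, -, h0, h1, hr⟩ := h
  rw [← hr, ← h0, ← h1]
  exact ⟨mem_range_self _, mem_range_self _⟩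

theorem isArc_image {A : Set Plane} {p q : Plane} (h : IsArc A p q) {F : Plane → Plane}
    (hF : Continuous F) (hinj : Function.Injective F) : IsArc (F '' A) (F p) (F q) := by
  obtain ⟨γ, hc, hi, h0, h1, hr⟩ := h
  refine ⟨F ∘ γ, hF.comp hc, hinj.comp hi, by simp [h0], by simp [h1], ?_⟩
  rw [Set.range_comp, hr]

/-- Every graph on a finite vertex set has a drawing (with straight edges). -/
theorem exists_drawing [Finite V] (G : SimpleGraph V) : Nonempty (Drawing G) := by
  classical
  obtain ⟨φ₀, hφ₀⟩ := exists_injective_nat V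
  set φ : V → ℝ := fun v => (φ₀ v : ℝ) with hφdef
  have hφ : Function.Injective φ := fun a b h => hφ₀ (by simpa [hφdef] using h)
  let pt : V → Plane := fun v => !₂[φ v, φ v ^ 2]
  let ch : V → V → Set Plane := fun u v =>
    {z | z 1 = (φ u + φ v) * z 0 - φ u * φ v ∧ (z 0 - φ u) * (z 0 - φ v) ≤ 0}
  have hch : ∀ u v, ch u v = ch v u := by
    intro u v
    ext z
    simp only [ch, mem_ofPred_eq]
    constructor
    · rintro ⟨h1, h2⟩
      exact ⟨by rw [h1]; ring, by rw [mul_comm]; exact h2⟩
    · rintro ⟨h1, h2⟩
      exact ⟨by rw [h1]; ring, by rw [mul_comm]; exact h2⟩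
  let arc : Sym2 V → Set Plane := Sym2.lift ⟨ch, hch⟩
  have harc : ∀ u v, arc s(u, v) = ch u v := fun u v => rfl
  refine ⟨⟨pt, arc, ?_, ?_, ?_, ?_⟩⟩
  · intro u v h
    have := congrArg (fun z : Plane => z 0) h
    exact hφ (by simpa [pt] using this)
  · intro u v huv
    have hne : φ v - φ u ≠ 0 := fun h => huv.ne' (hφ (by linarith))
    rw [harc]
    refine ⟨fun t => !₂[φ u + (t : ℝ) * (φ v - φ u),
        (φ u + φ v) * (φ u + (t : ℝ) * (φ v - φ u)) - φ u * φ v], ?_, ?_, ?_, ?_, ?_⟩
    · refine (PiLp.continuous_toLp 2 _).comp ?_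
      refine continuous_pi fun i => ?_
      fin_cases i
      · simp only [Fin.zero_eta, Fin.isValue, Matrix.cons_val_zero]
        fun_prop
      · simp only [Fin.mk_one, Fin.isValue, Matrix.cons_val_one]
        fun_prop
    · intro s t hst
      have := congrArg (fun z : Plane => z 0) hst
      simp only [Fin.isValue, Matrix.cons_val_zero, add_right_inj,
        mul_eq_mul_right_iff] at this
      rcases this with h | h
      · exact Subtype.ext h
      · exact absurd h hne
    · ext i
      fin_cases i
      · simp [pt]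
      · simp [pt]; ring
    · ext i
      fin_cases i
      · simp [pt]
      · simp [pt]; ring
    · ext z
      simp only [mem_range, ch, mem_ofPred_eq]
      constructor
      · rintro ⟨t, rfl⟩
        refine ⟨by simp, ?_⟩
        have h0 := t.2.1
        have h1 := t.2.2
        have : ((φ u + (t : ℝ) * (φ v - φ u)) - φ u) * ((φ u + (t : ℝ) * (φ v - φ u)) - φ v)
            = - ((t : ℝ) * (1 - t) * (φ v - φ u) ^ 2) := by ring
        simp only [Fin.isValue, Matrix.cons_val_zero]
        rw [this]
        have : 0 ≤ (t : ℝ) * (1 - t) * (φ v - φ u) ^ 2 := by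
          have : 0 ≤ (1 - (t : ℝ)) := by linarith
          positivity
        linarith
      · rintro ⟨h1, h2⟩
        have ht : (z 0 - φ u) / (φ v - φ u) ∈ unitInterval := by
          have hsq : 0 < (φ v - φ u) ^ 2 := by positivity
          constructor
          · by_contra hneg
            push Not at hneg
            have h3 : (z 0 - φ u) * (φ v - φ u) < 0 := by
              have := mul_neg_of_neg_of_pos hneg hsq
              have h4 : (z 0 - φ u) / (φ v - φ u) * (φ v - φ u) ^ 2
                = (z 0 - φ u) * (φ v - φ u) := by field_simp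
              linarith
            have h5 : (z 0 - φ u) * (z 0 - φ v) = (z 0 - φ u) ^ 2 - (z 0 - φ u) * (φ v - φ u) := by
              ring
            nlinarith [sq_nonneg (z 0 - φ u)]
          · by_contra hneg
            push Not at hneg
            have h3 : (φ v - φ u) ^ 2 < (z 0 - φ u) * (φ v - φ u) := by
              have := mul_lt_mul_of_pos_right hneg hsq
              have h4 : (z 0 - φ u) / (φ v - φ u) * (φ v - φ u) ^ 2
                = (z 0 - φ u) * (φ v - φ u) := by field_simp
              linarith
            have h5 : (z 0 - φ u) * (z 0 - φ v) =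
                ((z 0 - φ u) * (φ v - φ u) - (φ v - φ u) ^ 2) + (z 0 - φ v) ^ 2 := by
              ring
            nlinarith [sq_nonneg (z 0 - φ v)]
        refine ⟨⟨_, ht⟩, ?_⟩
        have h0 : φ u + (z 0 - φ u) / (φ v - φ u) * (φ v - φ u) = z 0 := by
          field_simp
          ring
        ext i
        fin_cases i
        · simpa using h0
        · simp only [Fin.mk_one, Fin.isValue, Matrix.cons_val_one, Matrix.cons_val_zero]
          rw [h0, h1]
  · intro u v w huv hw
    rw [harc] at hw
    obtain ⟨h1, -⟩ := hw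
    simp only [pt, Fin.isValue, Matrix.cons_val_one, Matrix.cons_val_zero] at h1
    have h2 : (φ w - φ u) * (φ w - φ v) = 0 := by linarith
    rcases mul_eq_zero.mp h2 with h | h
    · exact Or.inl (hφ (by linarith))
    · exact Or.inr (hφ (by linarith))
  · intro e he f hf hne z hz z' hz'
    induction e using Sym2.ind with
    | _ u v =>
    induction f using Sym2.ind with
    | _ w x =>
    rw [harc, harc] at hz hz'
    obtain ⟨⟨h1, -⟩, ⟨h2, -⟩⟩ := hz
    obtain ⟨⟨h3, -⟩, ⟨h4, -⟩⟩ := hz'
    by_cases hzz : z 0 = z' 0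
    · ext i
      fin_cases i
      · exact hzz
      · simp only [Fin.mk_one, Fin.isValue]
        rw [h1, h3, hzz]
    · exfalso
      have hd : z 0 - z' 0 ≠ 0 := sub_ne_zero.mpr hzz
      have hs : (φ u + φ v) = (φ w + φ x) := by
        have : (φ u + φ v) * (z 0 - z' 0) = (φ w + φ x) * (z 0 - z' 0) := by linarith
        exact mul_right_cancel₀ hd this
      have hp : φ u * φ v = φ w * φ x := by
        rw [hs] at h1
        linarith
      have h5 : (φ u - φ w) * (φ u - φ x) = 0 := by
        have : (φ u - φ w) * (φ u - φ x) = φ u ^ 2 - φ u * (φ w + φ x) + φ w * φ x := by ring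
        rw [this, ← hs, ← hp]; ring
      rcases mul_eq_zero.mp h5 with h | h
      · have e1 : u = w := hφ (by linarith)
        have e2 : v = x := hφ (by linarith)
        exact hne (by rw [e1, e2])
      · have e1 : u = x := hφ (by linarith)
        have e2 : v = w := hφ (by linarith)
        exact hne (by rw [e1, e2, Sym2.eq_swap])

/-- Moving apart: if `c` is constant along the edges of the subgraph `H`, then the two label
classes of `H` can be drawn far from each other. -/
theorem Drawing.split [Finite V] {G H : SimpleGraph V} (D : Drawing G) (hHG : H ≤ G)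
    (c : V → Bool) (hc : ∀ u v, H.Adj u v → c u = c v) :
    ∃ D' : Drawing H, ∀ e f, D'.crossGraph.Adj e f →
      D.crossGraph.Adj e f ∧ e ∈ H.edgeSet ∧ f ∈ H.edgeSet ∧ ∀ u ∈ e, ∀ v ∈ f, c u = c v := by
  classical
  -- everything is in a ball
  have hb : Bornology.IsBounded ((⋃ e ∈ H.edgeSet, D.arc e) ∪ Set.range D.pt) := by
    refine Bornology.IsBounded.union ?_ (Set.finite_range _).isBounded
    refine (Bornology.isBounded_biUnion (Set.toFinite _)).mpr ?_
    intro e he
    induction e using Sym2.ind with
    | _ u v => exact (isArc_isCompact (D.isArc u v (hHG he))).isBounded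
  obtain ⟨R, hR⟩ := hb.subset_closedBall 0
  have hRarc : ∀ e ∈ H.edgeSet, ∀ z ∈ D.arc e, ‖z‖ ≤ R := by
    intro e he z hz
    have : z ∈ Metric.closedBall (0 : Plane) R :=
      hR (Or.inl (Set.mem_biUnion he hz))
    simpa using this
  have hRpt : ∀ v, ‖D.pt v‖ ≤ R := by
    intro v
    have : D.pt v ∈ Metric.closedBall (0 : Plane) R := hR (Or.inr (mem_range_self v))
    simpa using this
  obtain ⟨T, hT⟩ : ∃ T : Plane, 2 * R < ‖T‖ := NormedSpace.exists_lt_norm ℝ Plane (2 * R)
  have hsep : ∀ z w : Plane, ‖z‖ ≤ R → ‖w‖ ≤ R → z ≠ w + T := by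
    intro z w hz hw h
    have : T = z - w := by rw [h]; abel
    rw [this] at hT
    have := norm_sub_le z w
    linarith
  let sh : Bool → Plane → Plane := fun b z => if b then z + T else z
  have hshc : ∀ b, Continuous (sh b) := by
    intro b
    cases b
    · exact continuous_id
    · exact continuous_id.add continuous_const
  have hshi : ∀ b, Function.Injective (sh b) := by
    intro b z w h
    cases b
    · simpa [sh] using h
    · simpa [sh] using h
  have hshne : ∀ b b' z w, ‖z‖ ≤ R → ‖w‖ ≤ R → sh b z = sh b' w → b = b' := by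
    intro b b' z w hz hw h
    cases b <;> cases b' <;> simp only [sh] at h ⊢
    · exact absurd (by simpa using h) (hsep z w hz hw)
    · exact absurd (by simpa using h.symm) (hsep w z hw hz)
  -- label of an edge
  let lab : Sym2 V → Bool := fun e => decide (∃ v ∈ e, c v = true)
  have hlab : ∀ u v, H.Adj u v → lab s(u, v) = c u ∧ lab s(u, v) = c v := by
    intro u v huv
    have h1 := hc u v huv
    simp only [lab]
    cases hu : c u
    · rw [hu] at h1
      refine ⟨?_, ?_⟩
      · simp [hu, ← h1]
      · simp [hu, ← h1]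
    · rw [hu] at h1
      refine ⟨?_, ?_⟩
      · simp [hu]
      · simp [hu, ← h1]
  have hlab' : ∀ e ∈ H.edgeSet, ∀ v ∈ e, lab e = c v := by
    intro e he v hv
    induction e using Sym2.ind with
    | _ a b =>
    rcases Sym2.mem_iff.mp hv with rfl | rfl
    · exact (hlab _ _ he).1
    · exact (hlab _ _ he).2
  have hlift : ∀ e ∈ H.edgeSet, ∀ f ∈ H.edgeSet, ∀ z, z ∈ sh (lab e) '' D.arc e →
      z ∈ sh (lab f) '' D.arc f → lab e = lab f ∧ ∃ w, z = sh (lab e) w ∧ w ∈ D.arc e ∩ D.arc f := by
    rintro e he f hf z ⟨w, hw, hwz⟩ ⟨w', hw', hwz'⟩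
    have heq : lab e = lab f :=
      hshne _ _ w w' (hRarc e he w hw) (hRarc f hf w' hw') (hwz.trans hwz'.symm)
    refine ⟨heq, w, hwz.symm, hw, ?_⟩
    rw [← heq] at hwz'
    have : w = w' := hshi _ (hwz.trans hwz'.symm)
    rw [this]; exact hw'
  let D' : Drawing H :=
    { pt := fun v => sh (c v) (D.pt v)
      arc := fun e => sh (lab e) '' D.arc e
      pt_inj := by
        intro u v h
        have h1 : c u = c v := hshne _ _ _ _ (hRpt u) (hRpt v) h
        simp only [h1] at h
        exact D.pt_inj (hshi _ h)
      isArc := by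
        intro u v huv
        have := isArc_image (D.isArc u v (hHG huv)) (hshc (lab s(u, v))) (hshi (lab s(u, v)))
        simpa only [(hlab u v huv).1, (hc u v huv)] using
          (by
            have h1 := (hlab u v huv).1
            have h2 := (hlab u v huv).2
            rw [← h1]
            convert this using 2
            rw [← h2]  : IsArc (sh (lab s(u, v)) '' D.arc s(u, v)) (sh (c u) (D.pt u))
              (sh (c v) (D.pt v)))
      only_ends := by
        rintro u v w huv ⟨z, hz, hzw⟩
        have h1 : lab s(u, v) = c w :=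
          hshne _ _ _ _ (hRarc _ huv z hz) (hRpt w) hzw
        rw [h1] at hzw
        have h2 : z = D.pt w := hshi _ hzw
        rw [h2] at hz
        exact D.only_ends u v w (hHG huv) hz
      meet := by
        intro e he f hf hne z hz z' hz'
        obtain ⟨h1, w, rfl, hw⟩ := hlift e he f hf z hz.1 hz.2
        obtain ⟨-, w', rfl, hw'⟩ := hlift e he f hf z' hz'.1 hz'.2
        rw [D.meet e (SimpleGraph.edgeSet_mono hHG he) f (SimpleGraph.edgeSet_mono hHG hf) hne
          hw hw'] }
  refine ⟨D', ?_⟩
  rintro e f ⟨he, hf, hne, hdis, z, hz⟩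
  obtain ⟨h1, w, rfl, hw⟩ := hlift e he f hf z hz.1 hz.2
  refine ⟨⟨SimpleGraph.edgeSet_mono hHG he, SimpleGraph.edgeSet_mono hHG hf, hne, hdis, w, hw⟩,
    he, hf, ?_⟩
  intro u hu v hv
  rw [← hlab' e he u hu, ← hlab' f hf v hv, h1]

end Pool.Agent.Work.MP_c0cec8_co
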